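import Mathlib

namespace PPQ

open Subgroup

private theorem hom_pi {Q : Type} [Group Q] (N H : Subgroup Q) (hH : IsComplement' N H) :
    ∃ π : Q → N, (∀ g, (π g : Q)⁻¹ * g ∈ H) ∧ ∀ (g : Q) (v : N), (v : Q)⁻¹ * g ∈ H → π g = v := by
  have h1 : ∀ g : Q, ∃ v : N, (v : Q)⁻¹ * g ∈ H := by
    intro g
    obtain ⟨⟨v, h⟩, hvh, -⟩ := hH.existsUnique g
    have hvh' : (v : Q) * (h : Q) = g := hvh
    refine ⟨v, ?_⟩
    have h2 : (v : Q)⁻¹ * g = h := by rw [← hvh', inv_mul_cancel_left]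
    rw [h2]
    exact h.2
  choose π hπ using h1
  refine ⟨π, hπ, fun g v hv => ?_⟩
  have h2 : (π g : Q)⁻¹ * v ∈ H := by
    have h3 := H.mul_mem (hπ g) (H.inv_mem hv)
    have e : (π g : Q)⁻¹ * g * ((v : Q)⁻¹ * g)⁻¹ = (π g : Q)⁻¹ * v := by group
    rwa [e] at h3
  have h3 : (π g : Q)⁻¹ * v ∈ N := N.mul_mem (N.inv_mem (π g).2) v.2
  have h4 : (π g : Q)⁻¹ * v = 1 := Subgroup.disjoint_def.1 hH.disjoint h3 h2
  exact Subtype.ext (inv_mul_eq_one.1 h4)

private theorem hom_cross {Q : Type} [Group Q] (N : Subgroup Q) [hNn : N.Normal]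
    (hN : ∀ x ∈ N, ∀ y ∈ N, x * y = y * x) (S H : Subgroup Q) (π : Q → N)
    (h1 : ∀ g, (π g : Q)⁻¹ * g ∈ H) (h2 : ∀ (g : Q) (v : N), (v : Q)⁻¹ * g ∈ H → π g = v)
    (f : N →* S) (hf : ∀ (g : Q) (v w : N), (w : Q) = g * v * g⁻¹ → (f w : Q) = g * f v * g⁻¹)
    (g g' : Q) : (f (π (g * g')) : Q) = f (π g) * (g * f (π g') * g⁻¹) := by
  obtain ⟨w, hw⟩ : ∃ w : N, (w : Q) = g * π g' * g⁻¹ :=
    ⟨⟨g * π g' * g⁻¹, hNn.conj_mem _ (π g').2 g⟩, rfl⟩
  have h3 : π (g * g') = π g * w := by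
    apply h2
    have h4 : (π g : Q) * w = w * π g := hN _ (π g).2 _ w.2
    rw [Subgroup.coe_mul, h4, hw]
    have e : (g * (π g' : Q) * g⁻¹ * (π g : Q))⁻¹ * (g * g') =
        ((π g : Q)⁻¹ * g) * ((π g' : Q)⁻¹ * g') := by group
    rw [e]
    exact H.mul_mem (h1 g) (h1 g')
  rw [h3, map_mul, Subgroup.coe_mul, hf g (π g') w hw]

/-- The number of equivariant homomorphisms from the abelian normal subgroup `N` to a minimal
normal subgroup `S` inside `N`. -/
theorem card_hom_le {Q : Type} [Group Q] [Finite Q] {a b : Q} (hab : closure {a, b} = ⊤)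
    {m : ℕ} (ha : a ^ m = 1) (hb : b ^ m = 1) (N : Subgroup Q) [N.Normal]
    (hN : ∀ x ∈ N, ∀ y ∈ N, x * y = y * x) {q : ℕ} [Fact q.Prime] (hq : ∀ x ∈ N, x ^ q = 1)
    (hm : ¬ q ∣ m) (hi : N.index.Coprime q) (S : Subgroup Q) (hS : S.Normal) (hSN : S ≤ N)
    (hmin : ∀ S' : Subgroup Q, S'.Normal → S' ≤ S → S' = ⊥ ∨ S' = S) :
    Nat.card {f : N →* S // ∀ (g : Q) (v w : N), (w : Q) = g * v * g⁻¹ →
      (f w : Q) = g * f v * g⁻¹} ≤ Nat.card S := by
  classical
  have : S.Normal := hS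
  have hSpos : 0 < Nat.card S := Nat.card_pos
  -- the complement
  have hpN : IsPGroup q N := by
    intro x
    refine ⟨1, ?_⟩
    apply Subtype.ext
    rw [pow_one, Subgroup.coe_pow, hq _ x.2, Subgroup.coe_one]
  obtain ⟨n, hn⟩ := IsPGroup.iff_card.1 hpN
  have hcop : Nat.Coprime (Nat.card N) N.index := by
    rw [hn]
    exact Nat.Coprime.pow_left n hi.symm
  obtain ⟨H, hH⟩ := Subgroup.exists_right_complement'_of_coprime hcop
  obtain ⟨π, h1, h2⟩ := hom_pi N H hH
  have hπv : ∀ v : N, π (v : Q) = v := by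
    intro v
    apply h2
    rw [inv_mul_cancel]
    exact H.one_mem
  have hπh : ∀ h ∈ H, π h = 1 := by
    intro h hh
    apply h2
    rw [Subgroup.coe_one, inv_one, one_mul]
    exact hh
  have hcross := fun (f : {f : N →* S // ∀ (g : Q) (v w : N), (w : Q) = g * v * g⁻¹ →
      (f w : Q) = g * f v * g⁻¹}) => hom_cross N hN S H π h1 h2 f.1 f.2
  obtain ⟨th, hth⟩ : ∃ th : {f : N →* S // ∀ (g : Q) (v w : N), (w : Q) = g * v * g⁻¹ →
      (f w : Q) = g * f v * g⁻¹} → (Q →* Q), ∀ f g, th f g = (f.1 (π g) : Q) * g := by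
    refine ⟨fun f => MonoidHom.mk' (fun g => (f.1 (π g) : Q) * g) ?_, fun f g => rfl⟩
    intro g g'
    rw [hcross f g g']
    group
  rcases hmin (S ⊓ center Q) inferInstance inf_le_left with hc | hc
  · -- trivial intersection with the center
    have hmem : ∀ (f : {f : N →* S // ∀ (g : Q) (v w : N), (w : Q) = g * v * g⁻¹ →
        (f w : Q) = g * f v * g⁻¹}) (s : S) (g : Q), (s : Q) * th f g * (s : Q)⁻¹ * g⁻¹ ∈ S := by
      intro f s g
      have e : (s : Q) * th f g * (s : Q)⁻¹ * g⁻¹ =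
          (s : Q) * (f.1 (π g) : Q) * (g * ((s⁻¹ : S) : Q) * g⁻¹) := by
        rw [hth, Subgroup.coe_inv]
        group
      rw [e]
      exact S.mul_mem (S.mul_mem s.2 (f.1 (π g)).2) (hS.conj_mem _ (s⁻¹).2 g)
    have hinj : Function.Injective (fun p : {f : N →* S // ∀ (g : Q) (v w : N),
        (w : Q) = g * v * g⁻¹ → (f w : Q) = g * f v * g⁻¹} × S =>
        ((⟨(p.2 : Q) * th p.1 a * (p.2 : Q)⁻¹ * a⁻¹, hmem p.1 p.2 a⟩ : S),
          (⟨(p.2 : Q) * th p.1 b * (p.2 : Q)⁻¹ * b⁻¹, hmem p.1 p.2 b⟩ : S))) := by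
      rintro ⟨f, s⟩ ⟨f', s'⟩ heq
      have ea : (s : Q) * th f a * (s : Q)⁻¹ * a⁻¹ = (s' : Q) * th f' a * (s' : Q)⁻¹ * a⁻¹ :=
        congrArg (fun t : S × S => (t.1 : Q)) heq
      have eb : (s : Q) * th f b * (s : Q)⁻¹ * b⁻¹ = (s' : Q) * th f' b * (s' : Q)⁻¹ * b⁻¹ :=
        congrArg (fun t : S × S => (t.2 : Q)) heq
      have ea' := mul_right_cancel ea
      have eb' := mul_right_cancel eb
      have hhom : (MulAut.conj (s : Q)).toMonoidHom.comp (th f) =
          (MulAut.conj (s' : Q)).toMonoidHom.comp (th f') := by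
        refine MonoidHom.eq_of_eqOn_dense hab ?_
        intro x hx
        rcases hx with rfl | hx
        · simpa [MulAut.conj_apply] using ea'
        · have hx' : x = b := hx
          subst hx'
          simpa [MulAut.conj_apply] using eb'
      have hall : ∀ g : Q, (s : Q) * th f g * (s : Q)⁻¹ = (s' : Q) * th f' g * (s' : Q)⁻¹ := by
        intro g
        have h3 := DFunLike.congr_fun hhom g
        simpa [MulAut.conj_apply] using h3
      -- the homomorphisms are equal
      have hff : f = f' := by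
        apply Subtype.ext
        ext v
        have h3 := hall (v : Q)
        rw [hth, hth, hπv] at h3
        have c1 : ∀ (t : S) (x : Q), x ∈ N → (t : Q) * x * (t : Q)⁻¹ = x := by
          intro t x hx
          rw [hN _ (hSN t.2) x hx, mul_assoc, mul_inv_cancel, mul_one]
        rw [c1 s _ (N.mul_mem (hSN (f.1 v).2) v.2), c1 s' _ (N.mul_mem (hSN (f'.1 v).2) v.2)] at h3
        exact mul_right_cancel h3
      subst hff
      -- the elements are equal
      have hcen : (s' : Q)⁻¹ * s ∈ center Q := by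
        rw [Subgroup.mem_center_iff]
        intro g
        obtain ⟨t, ht⟩ : ∃ t : Q, t = (s' : Q)⁻¹ * s := ⟨_, rfl⟩
        have htN : t ∈ N := by
          rw [ht]
          exact N.mul_mem (N.inv_mem (hSN s'.2)) (hSN s.2)
        rw [← ht]
        have hg : g = (π g : Q) * ((π g : Q)⁻¹ * g) := by group
        have hh : t * ((π g : Q)⁻¹ * g) = ((π g : Q)⁻¹ * g) * t := by
          have h3 := hall ((π g : Q)⁻¹ * g)
          rw [hth, hπh _ (h1 g), map_one, Subgroup.coe_one, one_mul] at h3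
          obtain ⟨x, hx⟩ : ∃ x : Q, x = (π g : Q)⁻¹ * g := ⟨_, rfl⟩
          rw [← hx] at h3 ⊢
          rw [ht]
          calc (s' : Q)⁻¹ * s * x = (s' : Q)⁻¹ * ((s : Q) * x * (s : Q)⁻¹) * s := by group
            _ = (s' : Q)⁻¹ * ((s' : Q) * x * (s' : Q)⁻¹) * s := by rw [h3]
            _ = x * ((s' : Q)⁻¹ * s) := by group
        have hv : t * (π g : Q) = (π g : Q) * t := hN _ htN _ (π g).2
        calc g * t = (π g : Q) * ((π g : Q)⁻¹ * g) * t := by rw [← hg]
          _ = (π g : Q) * (((π g : Q)⁻¹ * g) * t) := by rw [mul_assoc]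
          _ = (π g : Q) * (t * ((π g : Q)⁻¹ * g)) := by rw [hh]
          _ = ((π g : Q) * t) * ((π g : Q)⁻¹ * g) := by rw [mul_assoc]
          _ = (t * (π g : Q)) * ((π g : Q)⁻¹ * g) := by rw [hv]
          _ = t * ((π g : Q) * ((π g : Q)⁻¹ * g)) := by rw [mul_assoc]
          _ = t * g := by rw [← hg]
      have hbot : (s' : Q)⁻¹ * s ∈ S ⊓ center Q :=
        ⟨S.mul_mem (S.inv_mem s'.2) s.2, hcen⟩
      rw [hc, Subgroup.mem_bot] at hbot
      have hss : s = s' := Subtype.ext (inv_mul_eq_one.1 hbot).symm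
      rw [hss]
    have hcard := Nat.card_le_card_of_injective _ hinj
    rw [Nat.card_prod, Nat.card_prod] at hcard
    exact Nat.le_of_mul_le_mul_right hcard hSpos
  · -- central
    have hcent : ∀ s : S, ∀ g : Q, g * (s : Q) * g⁻¹ = s := by
      intro s g
      have h3 : (s : Q) ∈ S ⊓ center Q := by
        rw [hc]
        exact s.2
      have h4 := Subgroup.mem_center_iff.1 h3.2 g
      rw [h4, mul_assoc, mul_inv_cancel, mul_one]
    have hsub : Subsingleton {f : N →* S // ∀ (g : Q) (v w : N), (w : Q) = g * v * g⁻¹ →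
        (f w : Q) = g * f v * g⁻¹} := by
      have hone : ∀ (f : {f : N →* S // ∀ (g : Q) (v w : N), (w : Q) = g * v * g⁻¹ →
          (f w : Q) = g * f v * g⁻¹}) (v : N), f.1 v = 1 := by
        intro f
        obtain ⟨D, hD⟩ : ∃ D : Q →* S, ∀ g, D g = f.1 (π g) := by
          refine ⟨MonoidHom.mk' (fun g => f.1 (π g)) ?_, fun g => rfl⟩
          intro g g'
          apply Subtype.ext
          rw [Subgroup.coe_mul, hcross f g g', hcent]
        have hgen : ∀ x : Q, x ^ m = 1 → D x = 1 := by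
          intro x hx
          have h3 : (D x) ^ m = 1 := by rw [← map_pow, hx, map_one]
          have h4 : (D x) ^ q = 1 := by
            apply Subtype.ext
            rw [Subgroup.coe_pow, hq _ (hSN (D x).2), Subgroup.coe_one]
          have h5 : Nat.Coprime q m := (Nat.Prime.coprime_iff_not_dvd (Fact.out)).2 hm
          have h6 : orderOf (D x) ∣ Nat.gcd q m :=
            Nat.dvd_gcd (orderOf_dvd_of_pow_eq_one h4) (orderOf_dvd_of_pow_eq_one h3)
          rw [Nat.Coprime.gcd_eq_one h5, Nat.dvd_one, orderOf_eq_one_iff] at h6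
          exact h6
        have hD1 : D = 1 := by
          refine MonoidHom.eq_of_eqOn_dense hab ?_
          intro x hx
          rcases hx with rfl | hx
          · exact hgen _ ha
          · have hx' : x = b := hx
            subst hx'
            exact hgen _ hb
        intro v
        have h3 := hD (v : Q)
        rw [hπv, hD1] at h3
        exact h3.symm
      refine ⟨fun f f' => ?_⟩
      apply Subtype.ext
      ext v
      rw [hone f v, hone f' v]
    have h3 : Nat.card {f : N →* S // ∀ (g : Q) (v w : N), (w : Q) = g * v * g⁻¹ →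
        (f w : Q) = g * f v * g⁻¹} ≤ 1 := Finite.card_le_one_iff_subsingleton.2 hsub
    omega

end PPQ
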