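import Pool.Agent.PPQ.CycMod
import Pool.Agent.PPQ.Hom

/-! Project PPQ: an abelian normal subgroup of exponent `q` is normally generated by one element. -/

namespace PPQ

open Subgroup

section core

variable {V H : Type} [AddCommGroup V] [Finite V] [Group H] [Finite H] {q : ℕ} [Fact q.Prime]
  [mk : Module (ZMod q) V]

private theorem cyc_core (ρ : H → V →+ V) (h1 : ∀ v, ρ 1 v = v)
    (hmul : ∀ g h v, ρ (g * h) v = ρ g (ρ h v)) (hH : Nat.card H < q)
    (hHom : ∀ S : AddSubgroup V, (∀ h, ∀ v ∈ S, ρ h v ∈ S) →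
      (∀ S' : AddSubgroup V, (∀ h, ∀ v ∈ S', ρ h v ∈ S') → S' ≤ S → S' = ⊥ ∨ S' = S) →
      Nat.card {f : V →+ S // ∀ h v, (f (ρ h v) : V) = ρ h (f v)} ≤ Nat.card S) :
    ∃ z : V, (∀ M : AddSubgroup V, (∀ h, ∀ v ∈ M, ρ h v ∈ M) → z ∈ M → M = ⊤) ∧
      ∀ y, ∃ c : ℕ, ∀ M : AddSubgroup V, (∀ h, ∀ v ∈ M, ρ h v ∈ M) → y + c • z ∈ M → M = ⊤ := by
  let ρ' : H →* Module.End (ZMod q) V :=
    { toFun := fun h => (ρ h).toZModLinearMap q
      map_one' := by
        ext v
        simp [h1]
      map_mul' := fun g h => by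
        ext v
        simp [hmul] }
  let φ : MonoidAlgebra (ZMod q) H →ₐ[ZMod q] Module.End (ZMod q) V :=
    MonoidAlgebra.lift (ZMod q) _ H ρ'
  let mA : Module (MonoidAlgebra (ZMod q) H) V := Module.compHom V φ.toRingHom
  have hsm : ∀ (r : MonoidAlgebra (ZMod q) H) (v : V), r • v = φ r v := fun _ _ => rfl
  have hof : ∀ (h : H) (v : V), (MonoidAlgebra.of (ZMod q) H h) • v = ρ h v := by
    intro h v
    rw [hsm, MonoidAlgebra.lift_of]
    rfl
  have halg : ∀ (c : ZMod q) (v : V), (algebraMap (ZMod q) (MonoidAlgebra (ZMod q) H) c) • v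
      = c • v := by
    intro c v
    rw [hsm, AlgHom.commutes]
    rfl
  have hne : NeZero (Nat.card H : ZMod q) := by
    refine ⟨fun h => ?_⟩
    rw [ZMod.natCast_eq_zero_iff] at h
    exact absurd (Nat.le_of_dvd Nat.card_pos h) (not_le.2 hH)
  have hsub : ∀ M : AddSubgroup V, (∀ h, ∀ v ∈ M, ρ h v ∈ M) →
      ∃ S : Submodule (MonoidAlgebra (ZMod q) H) V, ∀ v, v ∈ S ↔ v ∈ M := by
    intro M hM
    refine ⟨{ M.toAddSubmonoid with smul_mem' := ?_ }, fun v => Iff.rfl⟩
    intro r v hv
    change r • v ∈ M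
    induction r using MonoidAlgebra.induction_on with
    | of h => rw [hof]; exact hM h v hv
    | add x y hx hy => rw [add_smul]; exact M.add_mem hx hy
    | smul c x hx =>
      have h2 : (c • x) • v = c • (x • v) := by
        rw [hsm, map_smul, hsm]
        rfl
      rw [h2]
      have h3 : c • (x • v) = c.val • (x • v) := by
        conv_lhs => rw [← ZMod.natCast_zmod_val c]
        rw [Nat.cast_smul_eq_nsmul]
      rw [h3]
      exact M.nsmul_mem hx _
  have hinv : ∀ S : Submodule (MonoidAlgebra (ZMod q) H) V, ∀ h, ∀ v ∈ S.toAddSubgroup,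
      ρ h v ∈ S.toAddSubgroup := by
    intro S h v hv
    rw [← hof]
    exact S.smul_mem _ hv
  have htop : ∀ z : V, Submodule.span (MonoidAlgebra (ZMod q) H) {z} = ⊤ →
      ∀ M : AddSubgroup V, (∀ h, ∀ v ∈ M, ρ h v ∈ M) → z ∈ M → M = ⊤ := by
    intro z hz M hM hzM
    obtain ⟨S, hS⟩ := hsub M hM
    have h2 : S = ⊤ := by
      rw [eq_top_iff, ← hz, Submodule.span_le, Set.singleton_subset_iff]
      exact (hS z).2 hzM
    rw [AddSubgroup.eq_top_iff']
    intro v
    rw [← hS, h2]
    exact Submodule.mem_top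
  obtain ⟨z, hz⟩ := exists_span_singleton (R := MonoidAlgebra (ZMod q) H) (V := V) (by
    intro S hS
    have hatom : IsAtom S := isSimpleModule_iff_isAtom.1 hS
    have h2 := hHom S.toAddSubgroup (hinv S) (by
      intro S' hS' hle
      obtain ⟨T, hT⟩ := hsub S' hS'
      have h3 : T ≤ S := fun v hv => hle ((hT v).1 hv)
      rcases hatom.le_iff.1 h3 with h4 | h4
      · left
        rw [AddSubgroup.eq_bot_iff_forall]
        intro v hv
        have h5 := (hT v).2 hv
        rw [h4] at h5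
        exact (Submodule.mem_bot _).1 h5
      · right
        ext v
        rw [← hT, h4]
        rfl)
    refine le_trans ?_ h2
    let Φ : (V →ₗ[MonoidAlgebra (ZMod q) H] S) →
        {f : V →+ S.toAddSubgroup // ∀ h v, (f (ρ h v) : V) = ρ h (f v)} := fun f =>
      ⟨AddMonoidHom.mk' (fun v => ⟨(f v : V), (f v).2⟩) (fun a b => Subtype.ext (by
        simp)), fun h v => by
          have h6 := congrArg Subtype.val (f.map_smul (MonoidAlgebra.of (ZMod q) H h) v)
          rw [hof] at h6
          change ((f (ρ h v) : S) : V) = ρ h (f v : V)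
          rw [h6, ← hof]
          rfl⟩
    have hfin : Finite (V →+ S.toAddSubgroup) :=
      Finite.of_injective (fun f => (f : V → S.toAddSubgroup)) DFunLike.coe_injective
    refine Nat.card_le_card_of_injective Φ ?_
    intro f g hfg
    ext v
    have h7 := DFunLike.congr_fun (congrArg Subtype.val hfg) v
    exact congrArg Subtype.val h7)
  refine ⟨z, htop z hz, fun y => ?_⟩
  have hfr : Module.finrank (ZMod q) (MonoidAlgebra (ZMod q) H) < Nat.card (ZMod q) := by
    have := Fintype.ofFinite H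
    rw [Module.finrank_eq_card_basis (MonoidAlgebra.basis H (ZMod q)), Nat.card_zmod,
      ← Nat.card_eq_fintype_card]
    exact hH
  have hff : Module.Finite (ZMod q) (MonoidAlgebra (ZMod q) H) := by
    have := Fintype.ofFinite H
    exact Module.Finite.of_basis (MonoidAlgebra.basis H (ZMod q))
  obtain ⟨c, hc⟩ := exists_generic hfr hz y
  refine ⟨c.val, fun M hM hyM => htop _ hc M hM ?_⟩
  rw [halg]
  have h3 : c • z = c.val • z := by
    conv_lhs => rw [← ZMod.natCast_zmod_val c]
    rw [Nat.cast_smul_eq_nsmul]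
  rw [h3]
  exact hyM

end core

/-- An abelian normal subgroup `N` of exponent the prime `q` of a finite group generated by two
elements of order prime to `q` is normally generated by one element, and generically so. -/
theorem cyc {Q : Type} [Group Q] [Finite Q] {a b : Q} (hab : closure {a, b} = ⊤)
    {m : ℕ} (ha : a ^ m = 1) (hb : b ^ m = 1) (N : Subgroup Q) [N.Normal]
    (hN : ∀ x ∈ N, ∀ y ∈ N, x * y = y * x) {q : ℕ} [Fact q.Prime] (hq : ∀ x ∈ N, x ^ q = 1)
    (hm : ¬ q ∣ m) (hi : N.index < q) :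
    ∃ z ∈ N, (∀ M : Subgroup Q, M.Normal → z ∈ M → N ≤ M) ∧
      ∀ y ∈ N, ∃ c : ℕ, ∀ M : Subgroup Q, M.Normal → y * z ^ c ∈ M → N ≤ M := by
  have hqp : q.Prime := Fact.out
  have hi0 : N.index ≠ 0 := (inferInstance : N.FiniteIndex).index_ne_zero
  have hiq : N.index.Coprime q := by
    rw [Nat.coprime_comm, hqp.coprime_iff_not_dvd]
    exact Nat.not_dvd_of_pos_of_lt (Nat.pos_of_ne_zero hi0) hi
  have hco : (Nat.card N).Coprime N.index := by
    refine Nat.coprime_of_dvd fun p hp hpN hpi => ?_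
    have : Fact p.Prime := ⟨hp⟩
    obtain ⟨x, hx⟩ := exists_prime_orderOf_dvd_card' (G := N) p hpN
    have h1 : x ^ q = 1 := Subtype.ext (by simpa using hq x x.2)
    have h2 := orderOf_dvd_of_pow_eq_one h1
    rw [hx] at h2
    have h3 : p = q := (Nat.prime_dvd_prime_iff_eq hp hqp).1 h2
    rw [h3] at hpi
    exact absurd (Nat.le_of_dvd (Nat.pos_of_ne_zero hi0) hpi) (not_le.2 hi)
  obtain ⟨H, hH⟩ := exists_right_complement'_of_coprime hco
  have hHcard : Nat.card H < q := by
    rw [← hH.symm.index_eq_card]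
    exact hi
  have hdec : ∀ g : Q, ∃ v ∈ N, ∃ h ∈ H, g = v * h := by
    intro g
    obtain ⟨⟨v, h⟩, hvh⟩ := hH.2 g
    exact ⟨v, v.2, h, h.2, hvh.symm⟩
  let cN : CommGroup N := { (inferInstance : Group N) with
    mul_comm := fun x y => Subtype.ext (hN x x.2 y y.2) }
  let mk : Module (ZMod q) (Additive N) := AddCommGroup.zmodModule (n := q) (by
    intro v
    have h1 : (Additive.toMul v) ^ q = 1 := Subtype.ext (by simpa using hq _ (Additive.toMul v).2)
    exact h1)
  let ρ : H → Additive N →+ Additive N := fun h =>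
    MonoidHom.toAdditive (MulAut.conjNormal (h : Q)).toMonoidHom
  have hρ : ∀ (h : H) (v : Additive N), ((Additive.toMul (ρ h v) : N) : Q)
      = h * (Additive.toMul v : N) * (h : Q)⁻¹ := fun h v => rfl
  have hconj : ∀ g : Q, ∃ h : H, ∀ x ∈ N, g * x * g⁻¹ = h * x * (h : Q)⁻¹ := by
    intro g
    obtain ⟨v, hv, h, hh, rfl⟩ := hdec g
    refine ⟨⟨h, hh⟩, fun x hx => ?_⟩
    have h1 : h * x * h⁻¹ ∈ N := (inferInstance : N.Normal).conj_mem x hx h
    have h2 := hN v hv _ h1
    calc v * h * x * (v * h)⁻¹ = (v * (h * x * h⁻¹)) * v⁻¹ := by group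
      _ = h * x * h⁻¹ := by rw [h2, mul_inv_cancel_right]
  let T : AddSubgroup (Additive N) → Subgroup Q := fun S =>
    (AddSubgroup.toSubgroup' S).map N.subtype
  have hT : ∀ S x, x ∈ T S ↔ ∃ h : x ∈ N, Additive.ofMul (⟨x, h⟩ : N) ∈ S := by
    intro S x
    constructor
    · rintro ⟨y, hy, rfl⟩
      exact ⟨y.2, hy⟩
    · rintro ⟨h, hx⟩
      exact ⟨⟨x, h⟩, hx, rfl⟩
  let A : Subgroup Q → AddSubgroup (Additive N) := fun M => (M.subgroupOf N).toAddSubgroup
  have hA : ∀ M v, v ∈ A M ↔ ((Additive.toMul v : N) : Q) ∈ M := by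
    intro M v
    exact mem_subgroupOf
  have hTn : ∀ S : AddSubgroup (Additive N), (∀ h, ∀ v ∈ S, ρ h v ∈ S) → (T S).Normal := by
    intro S hS
    refine ⟨fun x hx g => ?_⟩
    obtain ⟨hxN, hxS⟩ := (hT S x).1 hx
    obtain ⟨h, hh⟩ := hconj g
    rw [hh x hxN]
    refine (hT S _).2 ⟨(inferInstance : N.Normal).conj_mem x hxN h, ?_⟩
    exact hS h _ hxS
  have hAi : ∀ M : Subgroup Q, M.Normal → ∀ h, ∀ v ∈ A M, ρ h v ∈ A M := by
    intro M hM h v hv
    rw [hA] at hv ⊢
    rw [hρ]
    exact hM.conj_mem _ hv _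
  have hAtop : ∀ M : Subgroup Q, A M = ⊤ → N ≤ M := by
    intro M h x hx
    have h1 : Additive.ofMul (⟨x, hx⟩ : N) ∈ A M := by
      rw [h]
      exact AddSubgroup.mem_top _
    exact (hA M _).1 h1
  obtain ⟨z, hz, hgen⟩ := cyc_core (q := q) ρ (fun v => Additive.toMul.injective (Subtype.ext (by
      rw [hρ]; simp))) (fun g h v => Additive.toMul.injective (Subtype.ext (by
      rw [hρ, hρ, hρ]; simp [mul_assoc]))) hHcard (by
    intro S hS hmin
    have h1 := card_hom_le hab ha hb N hN hq hm hiq (T S) (hTn S hS) (by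
      intro x hx
      exact ((hT S x).1 hx).1) (by
      intro S' hS' hle
      have h2 : ∀ v ∈ A S', v ∈ S := by
        intro v hv
        obtain ⟨_, h3⟩ := (hT S _).1 (hle ((hA S' v).1 hv))
        exact h3
      rcases hmin (A S') (hAi S' hS') h2 with h3 | h3
      · left
        rw [eq_bot_iff_forall]
        intro x hx
        obtain ⟨hxN, _⟩ := (hT S x).1 (hle hx)
        have h4 : Additive.ofMul (⟨x, hxN⟩ : N) ∈ A S' := (hA S' _).2 hx
        rw [h3, AddSubgroup.mem_bot] at h4
        exact congrArg (fun w : Additive N => ((Additive.toMul w : N) : Q)) h4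
      · right
        refine le_antisymm hle ?_
        intro x hx
        obtain ⟨hxN, hxS⟩ := (hT S x).1 hx
        rw [← h3] at hxS
        exact (hA S' _).1 hxS)
    have hcard : Nat.card (T S) ≤ Nat.card S :=
      Nat.card_le_card_of_injective
        (fun x : T S => (⟨Additive.ofMul (⟨x, ((hT S x).1 x.2).1⟩ : N), ((hT S x).1 x.2).2⟩ : S))
        (fun x y hxy => Subtype.ext (congrArg (fun w : S => ((Additive.toMul w.1 : N) : Q)) hxy))
    refine le_trans ?_ (h1.trans hcard)
    let Φ : {f : Additive N →+ S // ∀ h v, (f (ρ h v) : Additive N) = ρ h (f v)} →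
        {f : N →* T S // ∀ (g : Q) (v w : N), (w : Q) = g * v * g⁻¹ →
          (f w : Q) = g * f v * g⁻¹} := fun f =>
      ⟨MonoidHom.mk' (fun v => ⟨((Additive.toMul (f.1 (Additive.ofMul v)).1 : N) : Q),
        (hT S _).2 ⟨(Additive.toMul (f.1 (Additive.ofMul v)).1).2, (f.1 (Additive.ofMul v)).2⟩⟩)
        (fun v w => Subtype.ext (by
          have h2 := f.1.map_add (Additive.ofMul v) (Additive.ofMul w)
          have h3 := congrArg (fun w : S => ((Additive.toMul w.1 : N) : Q)) h2
          exact h3)),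
        fun g v w hw => by
          obtain ⟨h, hh⟩ := hconj g
          have h2 : Additive.ofMul w = ρ h (Additive.ofMul v) :=
            Additive.toMul.injective (Subtype.ext (by
              rw [hρ, toMul_ofMul, toMul_ofMul, hw, hh v v.2]))
          have h3 := f.2 h (Additive.ofMul v)
          rw [← h2] at h3
          have h4 := congrArg (fun w : Additive N => ((Additive.toMul w : N) : Q)) h3
          refine Eq.trans h4 ?_
          rw [hρ]
          exact (hh _ (Additive.toMul (f.1 (Additive.ofMul v)).1).2).symm⟩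
    have hfin : Finite (N →* T S) :=
      Finite.of_injective (fun f => (f : N → T S)) DFunLike.coe_injective
    refine Nat.card_le_card_of_injective Φ ?_
    intro f g hfg
    refine Subtype.ext (DFunLike.ext _ _ fun v => Subtype.ext ?_)
    have h2 := DFunLike.congr_fun (congrArg Subtype.val hfg) (Additive.toMul v)
    have h3 : ((Additive.toMul (f.1 v).1 : N) : Q) = ((Additive.toMul (g.1 v).1 : N) : Q) :=
      congrArg (fun x : T S => (x : Q)) h2
    exact Additive.toMul.injective (Subtype.ext h3))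
  refine ⟨(Additive.toMul z : N), (Additive.toMul z : N).2, fun M hM hzM => ?_, fun y hy => ?_⟩
  · exact hAtop M (hz (A M) (hAi M hM) ((hA M z).2 hzM))
  · obtain ⟨c, hc⟩ := hgen (Additive.ofMul (⟨y, hy⟩ : N))
    exact ⟨c, fun M hM hyM => hAtop M (hc (A M) (hAi M hM) ((hA M _).2 hyM))⟩

end PPQ
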