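import Mathlib

namespace PPQ

private theorem cycMod_key {R V : Type} [Ring R] [AddCommGroup V] [Module R V] [Finite V] {v : V}
    (hv : ∀ x : V, Nat.card (Submodule.span R {x}) ≤ Nat.card (Submodule.span R {v}))
    {K S : Submodule R V} (hK : IsCompl (Submodule.span R {v}) K) (hSK : S ≤ K) {π : V →ₗ[R] S}
    (hπv : π v = 0) (hπS : ∀ s : S, π s = s) (w : S) :
    ∃ f : V →ₗ[R] S, f v = w ∧ ∀ s : S, f s = 0 := by
  have hvC : v ∈ Submodule.span R {v} := Submodule.mem_span_singleton_self v
  obtain ⟨p, hpv, hpK⟩ : ∃ p : V →ₗ[R] Submodule.span R {v}, p v = ⟨v, hvC⟩ ∧ ∀ x ∈ K, p x = 0 :=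
    ⟨(Submodule.span R {v}).projectionOnto K hK, Submodule.projectionOnto_apply_of_mem_left hK hvC,
      fun x hx => (Submodule.projectionOnto_apply_eq_zero_iff hK).2 hx⟩
  have hmem : v + (w : V) ∈ Submodule.span R {v + (w : V)} := Submodule.mem_span_singleton_self _
  obtain ⟨q, hq⟩ : ∃ q : Submodule.span R {v + (w : V)} →ₗ[R] Submodule.span R {v}, ∀ x, q x = p x :=
    ⟨p.comp (Submodule.subtype _), fun x => rfl⟩
  have hqv : q ⟨v + w, hmem⟩ = ⟨v, hvC⟩ := by
    rw [hq]
    show p (v + w) = _
    rw [map_add, hpv, hpK w (hSK w.2), add_zero]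
  have hsurj : Function.Surjective q := by
    rintro ⟨c, hc⟩
    obtain ⟨r, rfl⟩ := Submodule.mem_span_singleton.1 hc
    refine ⟨r • ⟨v + w, hmem⟩, ?_⟩
    rw [map_smul, hqv]
    rfl
  have hbij : Function.Bijective q := hsurj.bijective_of_nat_card_le (hv (v + w))
  obtain ⟨e, he⟩ : ∃ e : Submodule.span R {v + (w : V)} ≃ₗ[R] Submodule.span R {v}, ∀ x, e x = q x :=
    ⟨LinearEquiv.ofBijective q hbij, fun x => rfl⟩
  refine ⟨π.comp ((Submodule.subtype _).comp (e.symm.toLinearMap.comp p)), ?_, ?_⟩
  · have h1 : e.symm (p v) = ⟨v + w, hmem⟩ := by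
      rw [LinearEquiv.symm_apply_eq, he, hpv]
      exact hqv.symm
    show π ((e.symm (p v) : Submodule.span R {v + (w : V)}) : V) = w
    rw [h1]
    show π (v + w) = w
    rw [map_add, hπv, zero_add, hπS]
  · intro s
    show π ((e.symm (p s) : Submodule.span R {v + (w : V)}) : V) = 0
    rw [hpK s (hSK s.2), map_zero]
    simp

/-- A finite semisimple module `V` with at most `|S|` homomorphisms to each simple submodule `S`
is cyclic. -/
theorem exists_span_singleton {R V : Type} [Ring R] [AddCommGroup V] [Module R V] [Finite V]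
    [IsSemisimpleModule R V]
    (h : ∀ S : Submodule R V, IsSimpleModule R S → Nat.card (V →ₗ[R] S) ≤ Nat.card S) :
    ∃ z : V, Submodule.span R {z} = ⊤ := by
  classical
  obtain ⟨v, hv⟩ := Finite.exists_max fun v : V => Nat.card (Submodule.span R {v})
  refine ⟨v, ?_⟩
  by_contra hne
  obtain ⟨K, hK⟩ := exists_isCompl (Submodule.span R {v})
  have hKne : K ≠ ⊥ := by
    intro h0
    apply hne
    have h1 := hK.sup_eq_top
    rwa [h0, sup_bot_eq] at h1
  obtain ⟨S, hSK, hS⟩ := (IsSemisimpleModule.eq_bot_or_exists_simple_le K).resolve_left hKne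
  obtain ⟨S', hS'⟩ := exists_isCompl S
  have hvC : v ∈ Submodule.span R {v} := Submodule.mem_span_singleton_self v
  obtain ⟨π, hπv, hπS⟩ : ∃ π : V →ₗ[R] S, π v = 0 ∧ ∀ s : S, π s = s := by
    refine ⟨(S.projectionOnto S' hS').comp (LinearMap.id - (Submodule.span R {v}).projection K hK), ?_, ?_⟩
    · have h1 : (Submodule.span R {v}).projection K hK v = v := by
        rw [← Submodule.coe_projectionOnto_apply, Submodule.projectionOnto_apply_of_mem_left hK hvC]
      rw [LinearMap.comp_apply, LinearMap.sub_apply, h1, LinearMap.id_apply, sub_self, map_zero]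
    · intro s
      have h1 : (Submodule.span R {v}).projection K hK s = 0 := by
        rw [← Submodule.coe_projectionOnto_apply, (Submodule.projectionOnto_apply_eq_zero_iff hK).2 (hSK s.2)]
        rfl
      rw [LinearMap.comp_apply, LinearMap.sub_apply, h1, LinearMap.id_apply, sub_zero]
      exact Submodule.projectionOnto_apply_left hS' s
  choose f hf1 hf2 using cycMod_key hv hK hSK hπv hπS
  have hfin : Finite (V →ₗ[R] S) := DFunLike.finite _
  have hnt : Nontrivial S := IsSimpleModule.nontrivial R S
  obtain ⟨s₀, hs₀⟩ := exists_ne (0 : S)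
  have hinj : Function.Injective (fun a : S × Bool => f a.1 + (if a.2 then π else 0)) := by
    rintro ⟨w, ε⟩ ⟨w', ε'⟩ hh
    simp only at hh
    have h1 := congrArg (fun g : V →ₗ[R] S => g v) hh
    have h2 := congrArg (fun g : V →ₗ[R] S => g s₀) hh
    simp only [LinearMap.add_apply, hf1, hf2, zero_add] at h1 h2
    cases ε <;> cases ε' <;> simp [hπv, hπS, hs₀, hs₀.symm] at h1 h2 ⊢ <;> exact h1
  have hcard := Nat.card_le_card_of_injective _ hinj
  rw [Nat.card_prod, Nat.card_eq_fintype_card (α := Bool), Fintype.card_bool] at hcard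
  have h3 := h S hS
  have h4 : 0 < Nat.card S := Nat.card_pos
  omega

/-- In a cyclic module over an algebra of dimension less than the cardinality of the finite base
field, every element becomes a generator after adding a scalar multiple of a fixed generator. -/
theorem exists_generic {k R V : Type} [Field k] [Finite k] [Ring R] [Algebra k R]
    [Module.Finite k R] [AddCommGroup V] [Module R V] (hk : Module.finrank k R < Nat.card k)
    {z : V} (hz : Submodule.span R {z} = ⊤) (y : V) :
    ∃ c : k, Submodule.span R {y + (algebraMap k R c) • z} = ⊤ := by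
  classical
  obtain ⟨r, hr⟩ := Submodule.mem_span_singleton.1 (hz ▸ Submodule.mem_top : y ∈ Submodule.span R {z})
  have hunit : ∃ c : k, IsUnit (r + algebraMap k R c) := by
    by_contra hcon
    push Not at hcon
    have hnt : Nontrivial R := by
      by_contra h1
      rw [not_nontrivial_iff_subsingleton] at h1
      exact hcon 0 (isUnit_of_subsingleton _)
    have hroot : ∀ c : k, (minpoly k r).IsRoot c := by
      intro c
      have h1 : c ∈ spectrum k r := by
        rw [spectrum.mem_iff]
        intro h2
        apply hcon (-c)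
        have h3 : r + algebraMap k R (-c) = -(algebraMap k R c - r) := by
          rw [map_neg]
          abel
        rw [h3]
        exact h2.neg
      have h2 := spectrum.subset_polynomial_aeval r (minpoly k r) ⟨c, h1, rfl⟩
      rw [minpoly.aeval, spectrum.zero_eq] at h2
      exact h2
    have hne : minpoly k r ≠ 0 := minpoly.ne_zero (Algebra.IsIntegral.isIntegral r)
    have := Fintype.ofFinite k
    have h3 := Polynomial.card_le_degree_of_subset_roots (p := minpoly k r) (Z := Finset.univ)
      (fun c _ => (Polynomial.mem_roots hne).2 (hroot c))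
    have h4 := minpoly.natDegree_le (A := k) r
    rw [Nat.card_eq_fintype_card] at hk
    rw [Finset.card_univ] at h3
    omega
  obtain ⟨c, u, hu⟩ := hunit
  refine ⟨c, ?_⟩
  have h1 : y + (algebraMap k R c) • z = (u : R) • z := by
    rw [hu, add_smul, hr]
  rw [h1, eq_top_iff, ← hz, Submodule.span_singleton_le_iff_mem, Submodule.mem_span_singleton]
  exact ⟨((u⁻¹ : Rˣ) : R), by rw [smul_smul, Units.inv_mul, one_smul]⟩

end PPQ
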