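import Pool.Agent.LDM.Defs

/-! Project PPQ (MP_fad14a_al): a residually finite group, given by a tower of normal subgroups
of finite index of the free group of rank two, whose finite nilpotent quotients and soluble
quotients of bounded derived length are bounded, and whose dimension is infinite. -/

namespace PPQ

/-- The free group of rank two. -/
abbrev F2 : Type := FreeGroup (Fin 2)

/-- The data of the construction: `L n` normal of finite index, generated by `Y n`,
`R (n + 1)` adds the normal closure of the `q n`-th powers of the elements of `Y n` to `R n`. -/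
structure Tower (K : ℕ) where
  L : ℕ → Subgroup F2
  R : ℕ → Subgroup F2
  q : ℕ → ℕ
  Y : ℕ → Finset F2
  L0 : L 0 = ⊤
  R0 : R 0 = ⊥
  Y0 : Y 0 = {FreeGroup.of 0, FreeGroup.of 1}
  Lsucc : ∀ n, L (n + 1) = LDM.Fr (q n) (L n) ⊔ R n
  Rsucc : ∀ n, R (n + 1) = R n ⊔ Subgroup.normalClosure {w | ∃ y ∈ Y n, w = y ^ q n}
  prime : ∀ n, (q n).Prime
  qlt : ∀ n, q n < q (n + 1)
  idx : ∀ n, (L n).index < q n
  gen : ∀ n, Subgroup.closure (Y n : Set F2) = L n
  few : ∀ n, (Y n).card * 2 ^ (n + 2) * K ≤ q n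
  norm : ∀ n, 1 ≤ n → ∀ y ∈ Y n, ∀ M : Subgroup F2, M.Normal → L (n + 1) ≤ M → y ∈ M → L n ≤ M
  ns : ∀ n, LDM.NS (L n)
  Rnormal : ∀ n, (R n).Normal
  RL : ∀ n, R n ≤ L n

namespace Tower

variable {K : ℕ} (t : Tower K)

/-- The intersection of the tower. -/
def inf : Subgroup F2 := ⨅ n, t.L n

end Tower

end PPQ
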