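import Pool.Agent.PPQ.Defs

/-! Lower bound for the number of cyclic quotients of a normal subgroup of the free group of rank two with
given power relators, by derivations into the permutation module. -/

namespace PPQ

open Subgroup

section

variable (A : Subgroup F2) [A.Normal] (K : Type) [Field K]

/-- the action on functions on the quotient -/
private def Low_rh (w : F2) : ((F2 ⧸ A) → K) →ₗ[K] ((F2 ⧸ A) → K) :=
  LinearMap.funLeft K K fun g => g * (w : F2 ⧸ A)

private theorem Low_rh_apply (w : F2) (φ : (F2 ⧸ A) → K) (g : F2 ⧸ A) :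
    Low_rh A K w φ g = φ (g * (w : F2 ⧸ A)) := rfl

private theorem Low_rh_one : Low_rh A K 1 = LinearMap.id := by
  ext φ g
  simp [Low_rh_apply]

private theorem Low_rh_mul (w w' : F2) : Low_rh A K (w * w') = Low_rh A K w ∘ₗ Low_rh A K w' := by
  refine LinearMap.ext fun φ => funext fun g => ?_
  rw [LinearMap.comp_apply, Low_rh_apply, Low_rh_apply, Low_rh_apply, QuotientGroup.mk_mul, mul_assoc]

private theorem Low_rh_mem {a : F2} (ha : a ∈ A) : Low_rh A K a = LinearMap.id := by
  refine LinearMap.ext fun φ => funext fun g => ?_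
  rw [Low_rh_apply, (QuotientGroup.eq_one_iff a).2 ha, mul_one]
  rfl

/-- derivations are linear in their values on the generators -/
private abbrev Low_V : Type := Fin 2 → (F2 ⧸ A) → K

private abbrev Low_N : Type := Low_V A K →ₗ[K] ((F2 ⧸ A) → K)

private def Low_aff (i : Fin 2) : Equiv.Perm (Low_N A K) where
  toFun v := LinearMap.proj i + Low_rh A K (FreeGroup.of i) ∘ₗ v
  invFun v := Low_rh A K (FreeGroup.of i)⁻¹ ∘ₗ (v - LinearMap.proj i)
  left_inv v := by
    show Low_rh A K (FreeGroup.of i)⁻¹ ∘ₗ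
      (LinearMap.proj i + Low_rh A K (FreeGroup.of i) ∘ₗ v - LinearMap.proj i) = v
    rw [add_sub_cancel_left, ← LinearMap.comp_assoc, ← Low_rh_mul, inv_mul_cancel, Low_rh_one,
      LinearMap.id_comp]
  right_inv v := by
    show LinearMap.proj i + Low_rh A K (FreeGroup.of i) ∘ₗ
      (Low_rh A K (FreeGroup.of i)⁻¹ ∘ₗ (v - LinearMap.proj i)) = v
    rw [← LinearMap.comp_assoc, ← Low_rh_mul, mul_inv_cancel, Low_rh_one, LinearMap.id_comp,
      add_sub_cancel]

private def Low_sig : F2 →* Equiv.Perm (Low_N A K) := FreeGroup.lift (Low_aff A K)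

private def Low_D (w : F2) : Low_N A K := Low_sig A K w 0

private theorem Low_sig_eq (w : F2) : ∀ v, Low_sig A K w v = Low_D A K w + Low_rh A K w ∘ₗ v := by
  induction w using FreeGroup.induction_on with
  | C1 =>
    intro v
    unfold Low_D
    rw [map_one, Low_rh_one, LinearMap.id_comp]
    simp
  | of i =>
    intro v
    have h : ∀ u, Low_sig A K (FreeGroup.of i) u =
        LinearMap.proj i + Low_rh A K (FreeGroup.of i) ∘ₗ u := by
      intro u
      unfold Low_sig
      rw [FreeGroup.lift_apply_of]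
      rfl
    unfold Low_D
    rw [h v, h 0, LinearMap.comp_zero, add_zero]
  | inv_of i ih =>
    intro v
    apply (Low_sig A K (FreeGroup.of i)).injective
    have h1 : ∀ u, Low_sig A K (FreeGroup.of i) (Low_sig A K (FreeGroup.of i)⁻¹ u) = u := by
      intro u
      rw [← Equiv.Perm.mul_apply, ← map_mul, mul_inv_cancel, map_one]
      rfl
    rw [h1]
    have h2 := h1 0
    rw [ih] at h2 ⊢
    unfold Low_D at h2 ⊢
    rw [LinearMap.comp_add, ← LinearMap.comp_assoc, ← Low_rh_mul, mul_inv_cancel, Low_rh_one,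
      LinearMap.id_comp, ← add_assoc, h2, zero_add]
  | mul x y ihx ihy =>
    intro v
    unfold Low_D at ihx ihy ⊢
    rw [map_mul, Equiv.Perm.mul_apply, Equiv.Perm.mul_apply, ihy v, ihx, ihx (Low_sig A K y 0), Low_rh_mul,
      LinearMap.comp_add, add_assoc, LinearMap.comp_assoc]

private theorem Low_D_mul (w w' : F2) :
    Low_D A K (w * w') = Low_D A K w + Low_rh A K w ∘ₗ Low_D A K w' := by
  have h := Low_sig_eq A K w (Low_D A K w')
  rw [← h]
  unfold Low_D
  rw [map_mul]
  rfl

private theorem Low_D_of (i : Fin 2) : Low_D A K (FreeGroup.of i) = LinearMap.proj i := by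
  unfold Low_D Low_sig
  rw [FreeGroup.lift_apply_of]
  show (LinearMap.proj i : Low_N A K) + Low_rh A K (FreeGroup.of i) ∘ₗ 0 = LinearMap.proj i
  rw [LinearMap.comp_zero, add_zero]

private theorem Low_D_one : Low_D A K 1 = 0 := by
  unfold Low_D
  rw [map_one]
  rfl

private theorem Low_D_conj {r : F2} (hr : r ∈ A) (g : F2) :
    Low_D A K (g * r * g⁻¹) = Low_rh A K g ∘ₗ Low_D A K r := by
  have h1 : Low_D A K g + Low_rh A K g ∘ₗ Low_D A K g⁻¹ = 0 := by
    rw [← Low_D_mul, mul_inv_cancel, Low_D_one]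
  rw [Low_D_mul, Low_D_mul, Low_rh_mul, Low_rh_mem A K hr, LinearMap.comp_id, add_right_comm, h1,
    zero_add]

end

private theorem Low_inf {K V M : Type} [Field K] [AddCommGroup V] [Module K V] [FiniteDimensional K V]
    [AddCommGroup M] [Module K M] {ι : Type} (T : Finset ι) (L : ι → V →ₗ[K] M) (r : ι → ℕ)
    (h : ∀ t ∈ T, Module.finrank K (LinearMap.range (L t)) ≤ r t) :
    ∃ W : Submodule K V, (∀ t ∈ T, W ≤ LinearMap.ker (L t)) ∧
      Module.finrank K V ≤ Module.finrank K W + ∑ t ∈ T, r t := by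
  classical
  induction T using Finset.induction_on with
  | empty => exact ⟨⊤, fun t ht => absurd ht (Finset.notMem_empty t), by simp⟩
  | insert t T ht ih =>
    obtain ⟨W, hW, hd⟩ := ih fun s hs => h s (Finset.mem_insert_of_mem hs)
    refine ⟨W ⊓ LinearMap.ker (L t), fun s hs => ?_, ?_⟩
    · rcases Finset.mem_insert.1 hs with rfl | hs
      · exact inf_le_right
      · exact inf_le_left.trans (hW s hs)
    · have h1 := Submodule.finrank_sup_add_finrank_inf_eq W (LinearMap.ker (L t))
      have h2 : Module.finrank K ↥(W ⊔ LinearMap.ker (L t)) ≤ Module.finrank K V := Submodule.finrank_le _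
      have h3 := LinearMap.finrank_range_add_finrank_ker (L t)
      have h4 := h t (Finset.mem_insert_self t T)
      rw [Finset.sum_insert ht]
      omega

private theorem Low_inv (A : Subgroup F2) [A.Normal] [A.FiniteIndex] (K : Type) [Field K] {y : F2} {m : ℕ}
    (hm : m.Prime) (hy : y ^ m ∈ A) (hyA : y ∉ A) :
    Module.finrank K (LinearMap.range (Low_D A K (y ^ m))) ≤ A.index / m := by
  classical
  have hfin : Finite (F2 ⧸ A) := inferInstance
  have : Fact m.Prime := ⟨hm⟩
  set H : Subgroup (F2 ⧸ A) := Subgroup.zpowers (y : F2 ⧸ A) with hH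
  have hord : orderOf (y : F2 ⧸ A) = m := by
    refine orderOf_eq_prime ?_ ?_
    · rw [← QuotientGroup.mk_pow]
      exact (QuotientGroup.eq_one_iff _).2 hy
    · intro h
      exact hyA ((QuotientGroup.eq_one_iff y).1 h)
  have hcard : Nat.card ((F2 ⧸ A) ⧸ H) = A.index / m := by
    have h1 := Subgroup.card_eq_card_quotient_mul_card_subgroup H
    rw [Nat.card_zpowers, hord] at h1
    have h2 : A.index = Nat.card (F2 ⧸ A) := rfl
    rw [h2, h1, Nat.mul_div_cancel _ hm.pos]
  have : Fintype ((F2 ⧸ A) ⧸ H) := Fintype.ofFinite _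
  -- invariants are functions on the cosets
  have hle : LinearMap.range (Low_D A K (y ^ m)) ≤ LinearMap.range
      (LinearMap.funLeft K K (QuotientGroup.mk : (F2 ⧸ A) → (F2 ⧸ A) ⧸ H)) := by
    rintro φ ⟨d, rfl⟩
    have h1 : Low_rh A K y ∘ₗ Low_D A K (y ^ m) = Low_D A K (y ^ m) := by
      have h2 := Low_D_mul A K y (y ^ m)
      have h3 := Low_D_mul A K (y ^ m) y
      rw [← pow_succ', pow_succ, h3, Low_rh_mem A K hy, LinearMap.id_comp, add_comm] at h2
      exact (add_left_cancel h2).symm
    have h4 : ∀ g : F2 ⧸ A, Low_D A K (y ^ m) d (g * (y : F2 ⧸ A)) = Low_D A K (y ^ m) d g :=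
      fun g => congrFun (LinearMap.congr_fun h1 d) g
    have h5 : ∀ (n : ℕ) (g : F2 ⧸ A),
        Low_D A K (y ^ m) d (g * (y : F2 ⧸ A) ^ n) = Low_D A K (y ^ m) d g := by
      intro n
      induction n with
      | zero => intro g; rw [pow_zero, mul_one]
      | succ n ih => intro g; rw [pow_succ, ← mul_assoc, h4, ih]
    refine ⟨fun c => Low_D A K (y ^ m) d c.out, funext fun g => ?_⟩
    show Low_D A K (y ^ m) d (QuotientGroup.mk (s := H) g).out = _
    obtain ⟨h, hh⟩ := QuotientGroup.mk_out_eq_mul H g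
    rw [hh]
    obtain ⟨n, hn⟩ := (isOfFinOrder_of_finite (y : F2 ⧸ A)).mem_zpowers_iff_mem_range_orderOf.1 h.2 |> Finset.mem_image.1
    rw [← hn.2]
    exact h5 n g
  calc Module.finrank K (LinearMap.range (Low_D A K (y ^ m))) ≤ Module.finrank K (LinearMap.range
      (LinearMap.funLeft K K (QuotientGroup.mk : (F2 ⧸ A) → (F2 ⧸ A) ⧸ H))) :=
        Submodule.finrank_mono hle
    _ ≤ Module.finrank K (((F2 ⧸ A) ⧸ H) → K) := LinearMap.finrank_range_le _
    _ = A.index / m := by
      rw [Module.finrank_fintype_fun_eq_card, ← Nat.card_eq_fintype_card, hcard]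

/-- Lower bound: a normal subgroup `A` of finite index `j` in the free group of rank two maps onto
`(Z/q)^k` with all conjugates of the given prime power relators `y ^ m` in the kernel, where
`k ≥ j - ∑ j / m`. -/
theorem low {A : Subgroup F2} (hA : LDM.NS A) (q : ℕ) [Fact q.Prime] (T : Finset (F2 × ℕ))
    (hT : ∀ t ∈ T, t.2.Prime ∧ t.1 ^ t.2 ∈ A ∧ t.1 ∉ A) :
    ∃ (k : ℕ) (f : A →* Multiplicative (Fin k → ZMod q)), Function.Surjective f ∧
      A.index ≤ k + ∑ t ∈ T, A.index / t.2 ∧
      ∀ t ∈ T, ∀ g : F2, ∀ h : g * t.1 ^ t.2 * g⁻¹ ∈ A, f ⟨g * t.1 ^ t.2 * g⁻¹, h⟩ = 1 := by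
  classical
  have hn : A.Normal := hA.1
  have hf : A.FiniteIndex := hA.2
  have hfin : Finite (F2 ⧸ A) := inferInstance
  have hft : Fintype (F2 ⧸ A) := Fintype.ofFinite _
  have hcard : Fintype.card (F2 ⧸ A) = A.index := by
    rw [← Nat.card_eq_fintype_card]
    rfl
  -- step (a)
  obtain ⟨W, hW, hWd⟩ := Low_inf (K := ZMod q) T (fun t => Low_D A (ZMod q) (t.1 ^ t.2))
    (fun t => A.index / t.2) fun t ht => Low_inv A (ZMod q) (hT t ht).1 (hT t ht).2.1 (hT t ht).2.2
  have hV : Module.finrank (ZMod q) (Low_V A (ZMod q)) = 2 * A.index := by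
    rw [Module.finrank_pi_fintype]
    simp [hcard]
  -- step (b)
  let F : Low_V A (ZMod q) →ₗ[ZMod q] (A → ZMod q) :=
    { toFun := fun d a => Low_D A (ZMod q) (a : F2) d 1
      map_add' := fun d d' => by ext a; simp
      map_smul' := fun c d => by ext a; simp }
  have hF : ∀ d (a : A), F d a = Low_D A (ZMod q) (a : F2) d 1 := fun _ _ => rfl
  have hFadd : ∀ d (a a' : A), F d (a * a') = F d a + F d a' := by
    intro d a a'
    rw [hF, hF, hF, Subgroup.coe_mul, Low_D_mul, Low_rh_mem A (ZMod q) a.2, LinearMap.id_comp]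
    rfl
  -- step (c)
  let P : ((F2 ⧸ A) → ZMod q) →ₗ[ZMod q] Low_V A (ZMod q) :=
    LinearMap.pi fun i => Low_rh A (ZMod q) (FreeGroup.of i) - LinearMap.id
  have hker : LinearMap.ker F ≤ LinearMap.range P := by
    intro d hd
    have h1 : ∀ a ∈ A, Low_D A (ZMod q) a d = 0 := by
      intro a ha
      funext g
      obtain ⟨w, rfl⟩ := QuotientGroup.mk_surjective g
      have h2 : w * a * w⁻¹ ∈ A := hn.conj_mem a ha w
      have h3 := congrFun (LinearMap.mem_ker.1 hd) ⟨_, h2⟩
      rw [hF, Low_D_conj A (ZMod q) ha, LinearMap.comp_apply, Low_rh_apply, one_mul] at h3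
      exact h3
    have h4 : ∀ w w' : F2, (w : F2 ⧸ A) = w' → Low_D A (ZMod q) w d = Low_D A (ZMod q) w' d := by
      intro w w' hw
      have h5 : w⁻¹ * w' ∈ A := QuotientGroup.eq.1 hw
      have h6 : w' = w * (w⁻¹ * w') := by group
      rw [h6, Low_D_mul, LinearMap.add_apply, LinearMap.comp_apply, h1 _ h5, map_zero, add_zero]
    refine ⟨fun g => Low_D A (ZMod q) g.out d 1, ?_⟩
    funext i g
    have h7 : ((g.out * FreeGroup.of i : F2) : F2 ⧸ A) = ((g * (FreeGroup.of i : F2 ⧸ A)).out : F2) := by
      rw [QuotientGroup.out_eq', QuotientGroup.mk_mul, QuotientGroup.out_eq']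
    show Low_D A (ZMod q) (g * (FreeGroup.of i : F2 ⧸ A)).out d 1 - Low_D A (ZMod q) g.out d 1 = d i g
    rw [← h4 _ _ h7, Low_D_mul, LinearMap.add_apply, LinearMap.comp_apply, Low_D_of, Pi.add_apply,
      Low_rh_apply, QuotientGroup.out_eq', one_mul, LinearMap.proj_apply]
    ring
  have hkd : Module.finrank (ZMod q) (LinearMap.ker F) ≤ A.index := by
    calc Module.finrank (ZMod q) (LinearMap.ker F) ≤ Module.finrank (ZMod q) (LinearMap.range P) :=
        Submodule.finrank_mono hker
      _ ≤ Module.finrank (ZMod q) ((F2 ⧸ A) → ZMod q) := LinearMap.finrank_range_le _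
      _ = A.index := by rw [Module.finrank_fintype_fun_eq_card, hcard]
  -- step (d)
  set I : Submodule (ZMod q) (A → ZMod q) := W.map F with hI
  have hIf : FiniteDimensional (ZMod q) I := by
    rw [hI]
    infer_instance
  have hId : Module.finrank (ZMod q) W ≤ Module.finrank (ZMod q) I + A.index := by
    have h1 := LinearMap.finrank_range_add_finrank_ker (F.domRestrict W)
    have h2 : LinearMap.range (F.domRestrict W) = I := by
      rw [hI, LinearMap.range_domRestrict]
    have h3 : Module.finrank (ZMod q) (LinearMap.ker (F.domRestrict W)) ≤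
        Module.finrank (ZMod q) (LinearMap.ker F) := by
      let e : LinearMap.ker (F.domRestrict W) →ₗ[ZMod q] LinearMap.ker F :=
        { toFun := fun x => ⟨x.1.1, by
            have := x.2
            rw [LinearMap.mem_ker] at this ⊢
            exact this⟩
          map_add' := fun _ _ => rfl
          map_smul' := fun _ _ => rfl }
      refine LinearMap.finrank_le_finrank_of_injective (f := e) fun x y hxy => ?_
      exact Subtype.ext (Subtype.ext (congrArg (fun z => z.1) hxy))
    rw [h2] at h1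
    omega
  have hIadd : ∀ φ ∈ I, ∀ a a' : A, φ (a * a') = φ a + φ a' := by
    rintro _ ⟨d, _, rfl⟩ a a'
    exact hFadd d a a'
  let b := Module.finBasis (ZMod q) I
  let f : A →* Multiplicative (Fin (Module.finrank (ZMod q) I) → ZMod q) :=
    MonoidHom.mk' (fun a => Multiplicative.ofAdd fun i => (b i : A → ZMod q) a) fun a a' => by
      rw [← ofAdd_add]
      congr 1
      funext i
      exact hIadd _ (b i).2 a a'
  refine ⟨Module.finrank (ZMod q) I, f, ?_, by omega, ?_⟩
  · -- surjectivity
    let R : AddSubgroup (Fin (Module.finrank (ZMod q) I) → ZMod q) :=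
      { carrier := Set.range fun a i => (b i : A → ZMod q) a
        zero_mem' := by
          refine ⟨1, funext fun i => ?_⟩
          have := hIadd _ (b i).2 1 1
          rw [mul_one] at this
          simpa using this
        add_mem' := by
          rintro _ _ ⟨a, rfl⟩ ⟨a', rfl⟩
          exact ⟨a * a', funext fun i => hIadd _ (b i).2 a a'⟩
        neg_mem' := by
          rintro _ ⟨a, rfl⟩
          refine ⟨a⁻¹, funext fun i => ?_⟩
          have h1 := hIadd _ (b i).2 1 1
          have h2 := hIadd _ (b i).2 a a⁻¹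
          rw [mul_one] at h1
          rw [mul_inv_cancel] at h2
          have h3 : (b i : A → ZMod q) 1 = 0 := by simpa using h1
          rw [h3] at h2
          exact (neg_eq_of_add_eq_zero_right h2.symm).symm }
    have hR : AddSubgroup.toZModSubmodule q R = ⊤ := by
      by_contra hne
      obtain ⟨c, hc0, hc⟩ := Submodule.exists_le_ker_of_lt_top _ (lt_top_iff_ne_top.2 hne)
      have h1 : ∀ a : A, c (fun i => (b i : A → ZMod q) a) = 0 := by
        intro a
        have : (fun i => (b i : A → ZMod q) a) ∈ AddSubgroup.toZModSubmodule q R := ⟨a, rfl⟩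
        exact LinearMap.mem_ker.1 (hc this)
      have h2 : ∑ i, (c fun j => if i = j then 1 else 0) • b i = 0 := by
        apply Subtype.ext
        funext a
        have h3 := h1 a
        rw [LinearMap.pi_apply_eq_sum_univ c] at h3
        refine Eq.trans ?_ h3
        simp only [Submodule.coe_sum, Finset.sum_apply, Submodule.coe_smul, Pi.smul_apply, smul_eq_mul]
        exact Finset.sum_congr rfl fun i _ => mul_comm _ _
      have h4 := Fintype.linearIndependent_iff.1 b.linearIndependent _ h2
      refine hc0 (LinearMap.ext fun v => ?_)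
      rw [LinearMap.pi_apply_eq_sum_univ c]
      refine Finset.sum_eq_zero fun i _ => ?_
      rw [h4 i, smul_zero]
    intro v
    have hv : (Multiplicative.toAdd v) ∈ AddSubgroup.toZModSubmodule q R := by
      rw [hR]
      trivial
    obtain ⟨a, ha⟩ := hv
    exact ⟨a, by
      show Multiplicative.ofAdd (fun i => (b i : A → ZMod q) a) = v
      exact congrArg Multiplicative.ofAdd ha⟩
  · -- the relators
    intro t ht g h
    have h0 : ∀ φ ∈ I, φ ⟨g * t.1 ^ t.2 * g⁻¹, h⟩ = 0 := by
      rintro _ ⟨d, hd, rfl⟩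
      rw [hF, Low_D_conj A (ZMod q) (hT t ht).2.1, LinearMap.comp_apply,
        LinearMap.mem_ker.1 (hW t ht hd), map_zero]
      rfl
    show Multiplicative.ofAdd (fun i => (b i : A → ZMod q) ⟨g * t.1 ^ t.2 * g⁻¹, h⟩) = 1
    rw [← ofAdd_zero]
    congr 1
    funext i
    exact h0 _ (b i).2

end PPQ
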