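import Pool.Agent.PPQ.Step

namespace PPQ

open Subgroup

private structure Seq_St where
  L : Subgroup F2
  R : Subgroup F2
  q : ℕ
  Y : Finset F2

private structure Seq_Ok (K q₀ n : ℕ) (s : Seq_St) : Prop where
  ns : LDM.NS s.L
  rn : s.R.Normal
  rl : s.R ≤ s.L
  pr : s.q.Prime
  ix : s.L.index < s.q
  gn : closure (s.Y : Set F2) = s.L
  fw : s.Y.card * 2 ^ (n + 2) * K ≤ s.q
  hx : ∀ i, FreeGroup.of i ^ q₀ ∈ s.R ⊔ normalClosure {w | ∃ y ∈ s.Y, w = y ^ s.q}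
  nm : 1 ≤ n → ∀ y ∈ s.Y, ∀ M : Subgroup F2, M.Normal → LDM.Fr s.q s.L ⊔ s.R ≤ M → y ∈ M →
    s.L ≤ M

private structure Seq_Rel (s t : Seq_St) : Prop where
  l : t.L = LDM.Fr s.q s.L ⊔ s.R
  r : t.R = s.R ⊔ normalClosure {w | ∃ y ∈ s.Y, w = y ^ s.q}
  q : s.q < t.q

private theorem Seq_next (K q₀ : ℕ) (hq₀ : 0 < q₀) (n : ℕ) (s : Seq_St) (h : Seq_Ok K q₀ n s) :
    ∃ t : Seq_St, Seq_Ok K q₀ (n + 1) t ∧ Seq_Rel s t := by
  have : Fact s.q.Prime := ⟨h.pr⟩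
  have hLn : (LDM.Fr s.q s.L ⊔ s.R).Normal := by
    have := LDM.Fr_normal (p := s.q) h.ns.1
    have := h.rn
    infer_instance
  have hLf : (LDM.Fr s.q s.L ⊔ s.R).FiniteIndex := by
    have := (LDM.fr_finiteIndex s.q s.L h.ns.2).2
    exact Subgroup.finiteIndex_of_le (H := LDM.Fr s.q s.L) le_sup_left
  have hRn : (s.R ⊔ normalClosure {w | ∃ y ∈ s.Y, w = y ^ s.q}).Normal := by
    have := h.rn
    infer_instance
  have hRL : s.R ⊔ normalClosure {w | ∃ y ∈ s.Y, w = y ^ s.q} ≤ LDM.Fr s.q s.L ⊔ s.R := by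
    refine sup_le le_sup_right ?_
    have := hLn
    refine normalClosure_le_normal ?_
    rintro _ ⟨y, hy, rfl⟩
    have h1 : y ∈ s.L := by
      rw [← h.gn]
      exact subset_closure hy
    exact (le_sup_left : LDM.Fr s.q s.L ≤ LDM.Fr s.q s.L ⊔ s.R)
      ((le_sup_left : LDM.pw s.q s.L ≤ LDM.Fr s.q s.L) (LDM.pow_mem_pw h1))
  obtain ⟨q', Y', h1, h2, h3, h4, h5, h6⟩ :=
    exists_step (LDM.Fr s.q s.L ⊔ s.R) (s.R ⊔ normalClosure {w | ∃ y ∈ s.Y, w = y ^ s.q})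
      ⟨hLn, hLf⟩ hRn hRL h.hx hq₀ (max (2 ^ (n + 3) * K) s.q)
  refine ⟨⟨LDM.Fr s.q s.L ⊔ s.R, s.R ⊔ normalClosure {w | ∃ y ∈ s.Y, w = y ^ s.q}, q', Y'⟩,
    ⟨⟨hLn, hLf⟩, hRn, hRL, h1, h3, h4, ?_, ?_, fun _ => h6⟩, ⟨rfl, rfl, ?_⟩⟩
  · rw [mul_assoc]
    exact le_trans (Nat.mul_le_mul_left _ (le_max_left _ _)) h5
  · intro i
    exact (le_sup_left : s.R ⊔ normalClosure {w | ∃ y ∈ s.Y, w = y ^ s.q} ≤ _) (h.hx i)
  · exact lt_of_le_of_lt (le_max_right _ _) h2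

private def Seq_s0 (q₀ : ℕ) : Seq_St := ⟨⊤, ⊥, q₀, {FreeGroup.of 0, FreeGroup.of 1}⟩

private theorem Seq_ok0 (K q₀ : ℕ) (hp : q₀.Prime) (hK : 8 * K ≤ q₀) :
    Seq_Ok K q₀ 0 (Seq_s0 q₀) where
  ns := ⟨(inferInstance : (⊤ : Subgroup F2).Normal), (inferInstance : (⊤ : Subgroup F2).FiniteIndex)⟩
  rn := (inferInstance : (⊥ : Subgroup F2).Normal)
  rl := bot_le
  pr := hp
  ix := by
    show (⊤ : Subgroup F2).index < q₀
    rw [Subgroup.index_top]
    exact hp.one_lt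
  gn := by
    show closure ((({FreeGroup.of 0, FreeGroup.of 1} : Finset F2)) : Set F2) = ⊤
    rw [eq_top_iff, ← FreeGroup.closure_range_of]
    refine closure_mono ?_
    rintro x ⟨i, rfl⟩
    fin_cases i
    · simp
    · simp
  fw := by
    show ({FreeGroup.of 0, FreeGroup.of 1} : Finset F2).card * 2 ^ 2 * K ≤ q₀
    have h : ({FreeGroup.of 0, FreeGroup.of 1} : Finset F2).card ≤ 2 := Finset.card_le_two
    refine le_trans (Nat.mul_le_mul_right K (Nat.mul_le_mul_right (2 ^ 2) h)) ?_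
    omega
  hx := by
    intro i
    refine (le_sup_right : normalClosure {w | ∃ y ∈ (Seq_s0 q₀).Y, w = y ^ q₀} ≤ _) ?_
    refine subset_normalClosure ⟨FreeGroup.of i, ?_, rfl⟩
    show FreeGroup.of i ∈ ({FreeGroup.of 0, FreeGroup.of 1} : Finset F2)
    fin_cases i
    · simp
    · simp
  nm := fun h => absurd h (by norm_num)

/-- The tower exists. -/
theorem exists_tower (K : ℕ) : Nonempty (Tower K) := by
  obtain ⟨q₀, hq₀, hp⟩ := Nat.exists_infinite_primes (8 * K)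
  choose f hf using Seq_next K q₀ hp.pos
  let F : (n : ℕ) → {s : Seq_St // Seq_Ok K q₀ n s} := fun n =>
    Nat.rec (motive := fun n => {s : Seq_St // Seq_Ok K q₀ n s})
      ⟨Seq_s0 q₀, Seq_ok0 K q₀ hp hq₀⟩ (fun n s => ⟨f n s.1 s.2, (hf n s.1 s.2).1⟩) n
  have hF : ∀ n, Seq_Rel (F n).1 (F (n + 1)).1 := fun n => (hf n (F n).1 (F n).2).2
  exact ⟨{ L := fun n => (F n).1.L
           R := fun n => (F n).1.R
           q := fun n => (F n).1.q
           Y := fun n => (F n).1.Y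
           L0 := rfl
           R0 := rfl
           Y0 := rfl
           Lsucc := fun n => (hF n).l
           Rsucc := fun n => (hF n).r
           prime := fun n => (F n).2.pr
           qlt := fun n => (hF n).q
           idx := fun n => (F n).2.ix
           gen := fun n => (F n).2.gn
           few := fun n => (F n).2.fw
           norm := fun n hn y hy M hM hL hyM => (F n).2.nm hn y hy M hM
             ((hF n).l ▸ hL) hyM
           ns := fun n => (F n).2.ns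
           Rnormal := fun n => (F n).2.rn
           RL := fun n => (F n).2.rl }⟩

end PPQ
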