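import Pool.Agent.PPQ.Surj
import Pool.Agent.PPQ.Seq
import Pool.Agent.LDM.Main

/-! Project PPQ: the group of a tower and its properties. -/

namespace PPQ

open Subgroup
open scoped commutatorElement

namespace Tower

variable {K : ℕ} (t : Tower K)

private theorem main_two : ∀ q : ℕ, q.Prime → ∀ k : ℕ,
    (∀ x : Multiplicative (Fin k → ZMod q), x = 1) → k = 0 := by
  intro q hq k h
  by_contra hk
  have : Fact (1 < q) := ⟨hq.one_lt⟩
  have h1 := h (Multiplicative.ofAdd fun _ => 1)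
  have h2 : (fun _ => 1 : Fin k → ZMod q) = 0 := h1
  have h3 := congrFun h2 ⟨0, Nat.pos_of_ne_zero hk⟩
  exact one_ne_zero h3

private theorem main_inf_index (hK : 0 < K) : ¬ t.inf.FiniteIndex := by
  intro hfin
  obtain ⟨m, k, f, hf, hk, h1⟩ := t.exists_surj ⟨t.inf_normal, hfin⟩ le_rfl (t.inf_le 1)
  have h2 : k = 0 := main_two (t.q m) (t.prime m) k fun x => by
    obtain ⟨y, rfl⟩ := hf x
    exact h1 y y.2
  have h3 := Nat.pos_of_ne_zero hfin.index_ne_zero
  subst h2
  rw [mul_zero, zero_add] at hk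
  have h4 := Nat.mul_le_mul_right t.inf.index (show 2 ≤ 2 * K by omega)
  omega

private theorem main_large (hK : 0 < K) (k : ℕ) : ∃ n, k ≤ (t.L n).index := by
  induction k with
  | zero => exact ⟨0, Nat.zero_le _⟩
  | succ k ih =>
    obtain ⟨n, hn⟩ := ih
    by_contra hcon
    push Not at hcon
    refine t.main_inf_index hK ?_
    have h1 : t.L n ≤ t.inf := by
      refine le_iInf fun m => ?_
      rcases le_total m n with h | h
      · exact t.L_anti h
      · have h2 := t.L_anti h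
        have h3 := (t.ns m).2
        rcases eq_or_lt_of_le h2 with h4 | h4
        · exact h4.ge
        · have h5 := index_strictAnti h4
          have h6 := hcon m
          omega
    have h7 := (t.ns n).2
    exact finiteIndex_of_le h1

end Tower

/-- Main theorem for a tower. -/
private theorem main_tower {K : ℕ} (t : Tower K) (hK : 0 < K) :
    ∃ (Γ : Type) (_ : Group Γ), (∃ a b : Γ, closure {a, b} = ⊤) ∧
    Group.ResiduallyFinite Γ ∧
    (∀ B : Subgroup Γ, B.FiniteIndex → ∃ C : ℕ, ∀ A : Subgroup B, ∀ _ : A.Normal,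
      A.FiniteIndex → Group.IsNilpotent (B ⧸ A) → A.index ≤ C) ∧
    (∀ B : Subgroup Γ, B.FiniteIndex → ∀ d : ℕ, (derivedSeries B d).FiniteIndex) ∧
    (∃ N₁ : Subgroup Γ, LDM.NS N₁ ∧ ∀ A : Subgroup Γ, LDM.NS A → A ≤ N₁ →
      ∃ q k : ℕ, q.Prime ∧ 2 * K * A.index ≤ 2 * K * k + A.index ∧ (k : ℕ∞) ≤ LDM.deltaP q A) ∧
    (∀ (N₁ : Subgroup Γ) (n : ℕ), LDM.NS N₁ → ∃ N₀ : Subgroup Γ, LDM.NS N₀ ∧ N₀ ≤ N₁ ∧
      n ≤ N₀.index) := by
  have hn := t.inf_normal
  let π := QuotientGroup.mk' t.inf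
  have hπ : Function.Surjective π := QuotientGroup.mk'_surjective t.inf
  have hker : π.ker = t.inf := QuotientGroup.ker_mk' _
  have hLn : ∀ n, (t.L n).Normal := fun n => (t.ns n).1
  have hLf : ∀ n, (t.L n).FiniteIndex := fun n => (t.ns n).2
  have hcm : ∀ n, ((t.L n).map π).comap π = t.L n := by
    intro n
    rw [comap_map_eq, hker]
    exact sup_eq_left.2 (t.inf_le n)
  have hinf : ∀ B : Subgroup (F2 ⧸ t.inf), t.inf ≤ B.comap π := by
    intro B
    exact hker.ge.trans (ker_le_comap _ _)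
  have hfi : ∀ B : Subgroup (F2 ⧸ t.inf), B.FiniteIndex → (B.comap π).FiniteIndex := by
    intro B hB
    refine ⟨?_⟩
    rw [index_comap_of_surjective _ hπ]
    exact hB.index_ne_zero
  have hNS : ∀ n, LDM.NS ((t.L n).map π) := by
    intro n
    refine ⟨Normal.map (hLn n) π hπ, ⟨?_⟩⟩
    rw [← index_comap_of_surjective _ hπ, hcm]
    exact (hLf n).index_ne_zero
  have hbelow : ∀ B : Subgroup (F2 ⧸ t.inf), B.FiniteIndex → ∃ n, t.L n ≤ B.comap π := fun B hB =>
    t.exists_L_le (hfi B hB) (hinf B)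
  refine ⟨F2 ⧸ t.inf, inferInstance, ⟨π (FreeGroup.of 0), π (FreeGroup.of 1), ?_⟩, ?_, ?_, ?_,
    ⟨(t.L 1).map π, hNS 1, ?_⟩, ?_⟩
  · have h1 := t.gen 0
    rw [t.Y0, t.L0] at h1
    have h2 : closure (π '' ({FreeGroup.of 0, FreeGroup.of 1} : Set F2)) = ⊤ := by
      rw [← MonoidHom.map_closure]
      have h3 : closure ({FreeGroup.of 0, FreeGroup.of 1} : Set F2) = ⊤ := by
        rw [← h1]
        congr 1
        simp
      rw [h3]
      exact map_top_of_surjective π hπ
    rwa [Set.image_pair] at h2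
  · rw [Group.residuallyFinite_iff_exists_finiteIndexNormalSubgroup]
    intro g hg
    obtain ⟨w, rfl⟩ := hπ g
    have h1 : w ∉ t.inf := fun h => hg ((QuotientGroup.eq_one_iff w).2 h)
    unfold Tower.inf at h1
    rw [mem_iInf] at h1
    push Not at h1
    obtain ⟨n, hn⟩ := h1
    have h2 := (hNS n).1
    have h3 := (hNS n).2
    refine ⟨⟨(t.L n).map π, h2, h3⟩, fun h => hn ?_⟩
    rw [← hcm n]
    exact h
  · intro B hB
    obtain ⟨n, hn⟩ := hbelow B hB
    refine ⟨(t.L (n + 1)).index, fun A hA hAf hN => ?_⟩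
    let ψ := π.subgroupComap B
    have hψ : Function.Surjective ψ := π.subgroupComap_surjective_of_surjective B hπ
    have h1 : (A.comap ψ).Normal := Normal.comap hA ψ
    have h2 : (A.comap ψ).index = A.index := index_comap_of_surjective A hψ
    have h3 : (A.comap ψ).FiniteIndex := ⟨by rw [h2]; exact hAf.index_ne_zero⟩
    have h4 : Group.IsNilpotent ((B.comap π) ⧸ (A.comap ψ)) := by
      let φ : ((B.comap π) ⧸ (A.comap ψ)) →* (B ⧸ A) := QuotientGroup.map _ _ ψ le_rfl
      have := hN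
      refine Subgroup.isNilpotent_of_ker_le_center φ ?_
      intro x hx
      obtain ⟨y, rfl⟩ := QuotientGroup.mk'_surjective _ x
      have h5 : QuotientGroup.mk' A (ψ y) = 1 := hx
      have h6 : ψ y ∈ A := (QuotientGroup.eq_one_iff _).1 h5
      have h7 : QuotientGroup.mk' (A.comap ψ) y = 1 := (QuotientGroup.eq_one_iff _).2 h6
      rw [h7]
      exact one_mem _
    have h5 := t.nilp hn (A.comap ψ) h3 (by
      intro x hx
      have h6 : ψ x = 1 := Subtype.ext ((QuotientGroup.eq_one_iff (x : F2)).2 hx)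
      change ψ x ∈ A
      rw [h6]
      exact one_mem _) h4
    have h6 := hLf (n + 1)
    have h7 := hLn (n + 1)
    have h8 : ((t.L (n + 1)).subgroupOf (B.comap π)).FiniteIndex := inferInstance
    rw [← h2]
    refine (index_antitone h5).trans ?_
    exact Nat.le_of_dvd (Nat.pos_of_ne_zero h6.index_ne_zero)
      (relIndex_dvd_index_of_normal (t.L (n + 1)) (B.comap π))
  · intro B hB d
    obtain ⟨n, hn⟩ := hbelow B hB
    have h1 : ∀ d, (t.L (n + d)).map π ≤ (derivedSeries B d).map B.subtype := by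
      intro d
      induction d with
      | zero =>
        rw [derivedSeries_zero, ← MonoidHom.range_eq_map, range_subtype]
        exact map_le_iff_le_comap.2 hn
      | succ d ih =>
        rw [derivedSeries_succ, map_commutator]
        refine (map_mono (t.L_succ_le (n + d))).trans ?_
        rw [Subgroup.map_sup, map_commutator]
        refine sup_le (commutator_mono ih ih) ?_
        have h2 : t.inf.map π = ⊥ := by
          rw [Subgroup.map_eq_bot_iff, hker]
        rw [h2]
        exact bot_le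
    have h2 := (hNS (n + d)).2
    have h3 : ((derivedSeries B d).map B.subtype).FiniteIndex := finiteIndex_of_le (h1 d)
    have h4 := h3.index_ne_zero
    rw [index_map_subtype] at h4
    exact ⟨left_ne_zero_of_mul h4⟩
  · intro A hA hA1
    have hU : LDM.NS (A.comap π) := ⟨Normal.comap hA.1 π, hfi A hA.2⟩
    obtain ⟨m, k, f, hf, hk, h1⟩ := t.exists_surj hU (hinf A) (by
      rw [← hcm 1]
      exact comap_mono hA1)
    have : Fact (t.q m).Prime := ⟨t.prime m⟩
    let ψ := π.subgroupComap A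
    have hψ : Function.Surjective ψ := π.subgroupComap_surjective_of_surjective A hπ
    have hkf : ψ.ker ≤ f.ker := by
      intro x hx
      refine h1 x ?_
      have h2 : π (x : F2) = 1 := congrArg Subtype.val (MonoidHom.mem_ker.1 hx)
      exact (QuotientGroup.eq_one_iff _).1 h2
    let g := ψ.liftOfSurjective hψ ⟨f, hkf⟩
    have hg : Function.Surjective g := by
      intro y
      obtain ⟨x, rfl⟩ := hf y
      exact ⟨ψ x, MonoidHom.liftOfRightInverse_comp_apply _ _ _ ⟨f, hkf⟩ x⟩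
    have h2 : (k : ℕ∞) ≤ LDM.deltaP (t.q m) A := by
      unfold LDM.deltaP
      exact le_iSup₂ (f := fun (n : ℕ) (_ : ∃ f : A →* Multiplicative (Fin n → ZMod (t.q m)),
        Function.Surjective f) => (n : ℕ∞)) k ⟨g, hg⟩
    rw [index_comap_of_surjective _ hπ] at hk
    exact ⟨t.q m, k, t.prime m, hk, h2⟩
  · intro N₁ K' hN₁
    obtain ⟨n, hn⟩ := hbelow N₁ hN₁.2
    obtain ⟨m, hm⟩ := t.main_large hK K'
    refine ⟨(t.L (max n m)).map π, hNS _, ?_, ?_⟩
    · rw [map_le_iff_le_comap]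
      exact (t.L_anti (le_max_left n m)).trans hn
    · rw [← index_comap_of_surjective _ hπ, hcm]
      have h1 := hLf (max n m)
      exact hm.trans (index_antitone (t.L_anti (le_max_right n m)))

/-- For every `ε > 0` there is a residually finite group generated by two elements such that
every subgroup `B` of finite index has a largest nilpotent quotient and all its derived subgroups
have finite index, but `dim H_1(A; F_q) ≥ (1 - ε) [Γ : A]` for all sufficiently deep normal
subgroups `A` of finite index and a prime `q` depending on `A`. -/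
theorem main (ε : ℝ) (hε : 0 < ε) : ∃ (Γ : Type) (_ : Group Γ),
    (∃ a b : Γ, closure {a, b} = ⊤) ∧
    Group.ResiduallyFinite Γ ∧
    (∀ B : Subgroup Γ, B.FiniteIndex →
      (∃ C : ℕ, ∀ A : Subgroup B, ∀ _ : A.Normal, Group.IsNilpotent (B ⧸ A) →
        A.FiniteIndex ∧ A.index ≤ C) ∧
      ∀ d : ℕ, (derivedSeries B d).FiniteIndex) ∧
    (∀ p : ℕ, p.Prime → LDM.DimP p Γ = 0) ∧
    (∃ N₁ : Subgroup Γ, LDM.NS N₁ ∧ ∀ A : Subgroup Γ, LDM.NS A → A ≤ N₁ →
      ∃ q k : ℕ, q.Prime ∧ (1 - ε) * A.index ≤ k ∧ (k : ℕ∞) ≤ LDM.deltaP q A ∧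
        LDM.deltaP q A ≤ LDM.delta A) ∧
    LDM.Dim Γ = ⊤ := by
  obtain ⟨K, hK⟩ := exists_nat_gt (1 / ε)
  have hK0 : 0 < K := by
    have h1 : (0 : ℝ) < K := lt_trans (by positivity) hK
    exact_mod_cast h1
  obtain ⟨t⟩ := exists_tower K
  obtain ⟨Γ, hΓ, ⟨a, b, hab⟩, hrf, hnil, hder, ⟨N₁, hN₁, hlow⟩, hbig⟩ := main_tower t hK0
  refine ⟨Γ, hΓ, ⟨a, b, hab⟩, hrf, fun B hB => ⟨?_, hder B hB⟩, ?_, ⟨N₁, hN₁, ?_⟩, ?_⟩
  · obtain ⟨C, hC⟩ := hnil B hB
    refine ⟨C, fun A hA hN => ?_⟩
    have hAf : A.FiniteIndex := by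
      obtain ⟨d, hd⟩ := (Group.isSolvable_def (B ⧸ A)).1 inferInstance
      have h1 : derivedSeries B d ≤ A := by
        intro x hx
        have h2 : QuotientGroup.mk' A x ∈ derivedSeries (B ⧸ A) d :=
          map_derivedSeries_le_derivedSeries (QuotientGroup.mk' A) d (mem_map_of_mem _ hx)
        rw [hd] at h2
        exact (QuotientGroup.eq_one_iff x).1 (mem_bot.1 h2)
      have := hder B hB d
      exact finiteIndex_of_le h1
    exact ⟨hAf, hC A hA hAf hN⟩
  · intro p hp
    have : Fact p.Prime := ⟨hp⟩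
    have hfg : Group.FG Γ := by
      rw [Group.fg_iff]
      exact ⟨{a, b}, hab, Set.toFinite _⟩
    have h1 : LDM.DimP p Γ ≤ ((0 : ℕ) : ℕ∞) := by
      rw [LDM.dimP_iff]
      intro B hB
      obtain ⟨C, hC⟩ := hnil B hB
      refine ⟨C, fun A hA hAp e he hx => ?_⟩
      obtain ⟨m, hm⟩ := hAp
      have hAf : A.FiniteIndex := ⟨by rw [hm]; exact pow_ne_zero _ hp.ne_zero⟩
      have hnilp : Group.IsNilpotent (B ⧸ A) :=
        (IsPGroup.of_card (n := m) (by rw [← hm]; rfl)).isNilpotent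
      have h2 := hC A hA hAf hnilp
      simp only [CharP.cast_eq_zero, Real.rpow_zero, mul_one]
      exact_mod_cast h2
    simpa using h1
  · intro A hA hA1
    obtain ⟨q, k, hq, hk, hkd⟩ := hlow A hA hA1
    have : Fact q.Prime := ⟨hq⟩
    refine ⟨q, k, hq, ?_, hkd, LDM.deltaP_le_delta A q⟩
    have h1 : (2 : ℝ) * K * A.index ≤ 2 * K * k + A.index := by exact_mod_cast hk
    have h2 : (0 : ℝ) < K := by exact_mod_cast hK0
    have h3 : (1 : ℝ) ≤ K * ε := by
      rw [div_lt_iff₀ hε] at hK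
      exact hK.le
    have h4 : (0 : ℝ) ≤ A.index := Nat.cast_nonneg _
    have h5 : (K : ℝ) * ((1 - ε) * A.index) ≤ K * k := by nlinarith
    exact le_of_mul_le_mul_left h5 h2
  · rw [ENat.eq_top_iff_forall_ge]
    intro n
    obtain ⟨N₀, hN₀, hle, hn⟩ := hbig N₁ (2 * n) hN₁
    unfold LDM.Dim
    refine le_trans ?_ (le_iSup₂ (f := fun (N₀ : Subgroup Γ) (_ : LDM.NS N₀) =>
      ⨅ (A : Subgroup Γ) (_ : LDM.NS A ∧ A ≤ N₀), LDM.delta A) N₀ hN₀)
    refine le_iInf₂ fun A hA => ?_
    obtain ⟨q, k, hq, hk, hkd⟩ := hlow A hA.1 (hA.2.trans hle)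
    have : Fact q.Prime := ⟨hq⟩
    have hAf := hA.1.2
    have h2 : 2 * n ≤ A.index := hn.trans (index_antitone hA.2)
    have h3 : A.index ≤ K * A.index := Nat.le_mul_of_pos_left _ hK0
    have h4 : K * A.index ≤ K * (2 * k) := by
      have h5 : 2 * K * A.index = K * A.index + K * A.index := by ring
      have h6 : K * (2 * k) = 2 * K * k := by ring
      omega
    have h5 : A.index ≤ 2 * k := Nat.le_of_mul_le_mul_left h4 hK0
    have h6 : n ≤ k := by omega
    exact le_trans (by exact_mod_cast h6) (hkd.trans (LDM.deltaP_le_delta A q))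

end PPQ
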