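import Pool.Agent.PPQ.Defs
import Pool.Agent.PPQ.Cyc
import Pool.Agent.LDM.Phi

namespace PPQ

open Subgroup
open scoped commutatorElement

private theorem Step_closure {L' : Subgroup F2} [L'.Normal] :
    closure ({QuotientGroup.mk' L' (FreeGroup.of 0), QuotientGroup.mk' L' (FreeGroup.of 1)} :
      Set (F2 ⧸ L')) = ⊤ := by
  have h1 : (closure (Set.range (FreeGroup.of : Fin 2 → F2))).map (QuotientGroup.mk' L') = ⊤ := by
    rw [FreeGroup.closure_range_of]
    exact Subgroup.map_top_of_surjective _ (QuotientGroup.mk'_surjective L')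
  rw [MonoidHom.map_closure] at h1
  rw [eq_top_iff, ← h1]
  refine closure_mono ?_
  rintro x ⟨y, ⟨i, rfl⟩, rfl⟩
  fin_cases i
  · exact Or.inl rfl
  · exact Or.inr rfl

/-- The choice of the next prime and of the next set of roots. -/
theorem exists_step {m : ℕ} (L R : Subgroup F2) (hL : LDM.NS L) (hR : R.Normal) (hRL : R ≤ L)
    (hx : ∀ i, FreeGroup.of i ^ m ∈ R) (hm : 0 < m) (K : ℕ) :
    ∃ (q : ℕ) (Y : Finset F2), q.Prime ∧ K < q ∧ L.index < q ∧ closure (Y : Set F2) = L ∧
      Y.card * K ≤ q ∧ ∀ y ∈ Y, ∀ M : Subgroup F2, M.Normal → LDM.Fr q L ⊔ R ≤ M → y ∈ M →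
        L ≤ M := by
  classical
  have := hL.1
  have := hL.2
  have : Fact (Nat.Prime 2) := ⟨Nat.prime_two⟩
  obtain ⟨S, hS⟩ := (LDM.fr_finiteIndex 2 L hL.2).1
  obtain ⟨q, hq, hp⟩ := Nat.exists_infinite_primes (K + L.index + m + (S.card + 1) * K + 1)
  have hqK : K < q := by omega
  have hqi : L.index < q := by omega
  have hqm : m < q := by omega
  have hqS : (S.card + 1) * K ≤ q := by omega
  have : Fact q.Prime := ⟨hp⟩
  have hFn : (LDM.Fr q L).Normal := LDM.Fr_normal hL.1
  have hFf : (LDM.Fr q L).FiniteIndex := (LDM.fr_finiteIndex q L hL.2).2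
  set L' : Subgroup F2 := LDM.Fr q L ⊔ R with hL'
  have hn : L'.Normal := by
    have := hFn
    have := hR
    rw [hL']
    infer_instance
  have hf : L'.FiniteIndex := Subgroup.finiteIndex_of_le (H := LDM.Fr q L) le_sup_left
  have hle : L' ≤ L := sup_le (LDM.Fr_le q L) hRL
  have : Finite (F2 ⧸ L') := inferInstance
  set π := QuotientGroup.mk' L' with hπ
  have hπs : Function.Surjective π := QuotientGroup.mk'_surjective L'
  have hker : π.ker = L' := QuotientGroup.ker_mk' L'
  have hone : ∀ x ∈ L', π x = 1 := fun x hx' => by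
    rw [← MonoidHom.mem_ker, hker]
    exact hx'
  have : (L.map π).Normal := Subgroup.Normal.map hL.1 π hπs
  have ha : ∀ i, π (FreeGroup.of i) ^ m = 1 := by
    intro i
    rw [← map_pow]
    exact hone _ (le_sup_right (a := LDM.Fr q L) (hx i))
  have hcomm : ∀ x ∈ L.map π, ∀ y ∈ L.map π, x * y = y * x := by
    rintro _ ⟨u, hu, rfl⟩ _ ⟨v, hv, rfl⟩
    have h1 : ⁅u, v⁆ ∈ L' :=
      (le_sup_left : LDM.Fr q L ≤ L') ((le_sup_right : ⁅L, L⁆ ≤ LDM.Fr q L)
        (Subgroup.commutator_mem_commutator hu hv))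
    have h2 := hone _ h1
    rw [map_commutatorElement] at h2
    exact commutatorElement_eq_one_iff_mul_comm.1 h2
  have hpow : ∀ x ∈ L.map π, x ^ q = 1 := by
    rintro _ ⟨u, hu, rfl⟩
    rw [← map_pow]
    exact hone _ ((le_sup_left : LDM.Fr q L ≤ L') ((le_sup_left : LDM.pw q L ≤ LDM.Fr q L)
      (LDM.pow_mem_pw hu)))
  have hidx : (L.map π).index < q := by
    rw [Subgroup.index_map_eq (H := L) hπs (by rw [hker]; exact hle)]
    exact hqi
  obtain ⟨z, hz, hz1, hz2⟩ := cyc (Step_closure (L' := L')) (ha 0) (ha 1) (L.map π) hcomm hpow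
    (fun h => absurd (Nat.le_of_dvd hm h) (by omega)) hidx
  obtain ⟨z₀, hz₀, hzz⟩ := hz
  have hz₀' : z₀ ∈ L := hz₀
  have hc : ∀ g : F2, ∃ c : ℕ, g ∈ L → ∀ M : Subgroup (F2 ⧸ L'), M.Normal →
      π g * z ^ c ∈ M → L.map π ≤ M := by
    intro g
    by_cases hg : g ∈ L
    · obtain ⟨c, hc⟩ := hz2 (π g) (Subgroup.mem_map_of_mem π hg)
      exact ⟨c, fun _ => hc⟩
    · exact ⟨0, fun h => absurd h hg⟩
  choose c hc using hc
  have hSL : ∀ g ∈ S, g ∈ L := fun g hg => by
    rw [← hS]
    exact subset_closure hg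
  have hback : ∀ M : Subgroup F2, M.Normal → L' ≤ M → L.map π ≤ M.map π → L ≤ M := by
    intro M _ hM h
    rw [Subgroup.map_le_iff_le_comap, Subgroup.comap_map_eq, hker, sup_eq_left.2 hM] at h
    exact h
  refine ⟨q, insert z₀ (S.image fun g => g * z₀ ^ c g), hp, hqK, hqi, ?_, ?_, ?_⟩
  · apply le_antisymm
    · rw [closure_le]
      intro x hx'
      rw [Finset.mem_coe, Finset.mem_insert, Finset.mem_image] at hx'
      rcases hx' with rfl | ⟨g, hg, rfl⟩
      · exact hz₀'
      · exact L.mul_mem (hSL g hg) (L.pow_mem hz₀' _)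
    · have h0 : z₀ ∈ closure ((insert z₀ (S.image fun g => g * z₀ ^ c g) : Finset F2) :
          Set F2) := subset_closure (Finset.mem_coe.2 (Finset.mem_insert_self _ _))
      conv_lhs => rw [← hS]
      rw [closure_le]
      intro g hg
      have h1 : g * z₀ ^ c g ∈ closure ((insert z₀ (S.image fun g => g * z₀ ^ c g) :
          Finset F2) : Set F2) :=
        subset_closure (Finset.mem_coe.2 (Finset.mem_insert_of_mem
          (Finset.mem_image.2 ⟨g, hg, rfl⟩)))
      have h2 := mul_mem h1 (inv_mem (pow_mem h0 (c g)))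
      rw [mul_inv_cancel_right] at h2
      exact h2
  · refine le_trans (Nat.mul_le_mul_right K ?_) hqS
    exact le_trans (Finset.card_insert_le _ _) (Nat.add_le_add_right Finset.card_image_le 1)
  · intro y hy M hMn hM hyM
    have := hMn
    have hMn' : (M.map π).Normal := Subgroup.Normal.map hMn π hπs
    refine hback M hMn hM ?_
    rw [Finset.mem_insert, Finset.mem_image] at hy
    rcases hy with rfl | ⟨g, hg, rfl⟩
    · refine hz1 _ hMn' ?_
      rw [← hzz]
      exact Subgroup.mem_map_of_mem π hyM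
    · refine hc g (hSL g hg) _ hMn' ?_
      rw [← hzz, ← map_pow, ← map_mul]
      exact Subgroup.mem_map_of_mem π hyM

end PPQ
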