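import Pool.Agent.PPQ.Top
import Pool.Agent.PPQ.Low

/-! Project PPQ: the lower bound for the tower. -/

namespace PPQ

open Subgroup
open scoped commutatorElement

private theorem surj_sum (j m : ℕ) (a : ℕ → ℕ) (ha : ∀ i, a i * 2 ^ (i + 2) ≤ j) :
    2 ^ (m + 1) * ∑ i ∈ Finset.range m, a i + j ≤ 2 ^ m * j := by
  induction m with
  | zero => simp
  | succ m ih =>
    rw [Finset.sum_range_succ]
    have h1 := ha m
    have h2 : 2 ^ (m + 1 + 1) * (∑ i ∈ Finset.range m, a i + a m) + j
        = 2 * (2 ^ (m + 1) * ∑ i ∈ Finset.range m, a i + j) + a m * 2 ^ (m + 2) - j := by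
      have h3 : 2 ^ (m + 1 + 1) * (∑ i ∈ Finset.range m, a i + a m) + j + j
        = 2 * (2 ^ (m + 1) * ∑ i ∈ Finset.range m, a i + j) + a m * 2 ^ (m + 2) := by ring
      omega
    rw [h2]
    have h4 : 2 ^ (m + 1) * j = 2 * (2 ^ m * j) := by ring
    rw [h4]
    omega

private theorem surj_half (j m : ℕ) (a : ℕ → ℕ) (ha : ∀ i, a i * 2 ^ (i + 2) ≤ j) :
    2 * ∑ i ∈ Finset.range m, a i ≤ j := by
  have h := surj_sum j m a ha
  have h1 : 2 ^ m * (2 * ∑ i ∈ Finset.range m, a i) ≤ 2 ^ m * j := by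
    have h2 : 2 ^ (m + 1) * ∑ i ∈ Finset.range m, a i
      = 2 ^ m * (2 * ∑ i ∈ Finset.range m, a i) := by ring
    omega
  exact Nat.le_of_mul_le_mul_left h1 (by positivity)

/-- The lower bound for the tower. -/
theorem Tower.exists_surj {K : ℕ} (t : Tower K) {U : Subgroup F2} (hU : LDM.NS U) (h : t.inf ≤ U)
    (h1 : U ≤ t.L 1) :
    ∃ (m k : ℕ) (f : U →* Multiplicative (Fin k → ZMod (t.q m))), Function.Surjective f ∧
      2 * K * U.index ≤ 2 * K * k + U.index ∧ ∀ x : U, (x : F2) ∈ t.inf → f x = 1 := by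
  classical
  have hex := t.exists_L_le hU.2 h
  obtain ⟨m, hm, hmin⟩ : ∃ m, t.L m ≤ U ∧ ∀ i < m, ¬ t.L i ≤ U :=
    ⟨Nat.find hex, Nat.find_spec hex, fun i hi => Nat.find_min hex hi⟩
  have : Fact (t.q m).Prime := ⟨t.prime m⟩
  let T : Finset (F2 × ℕ) := (Finset.range m).biUnion fun i => (t.Y i).image fun y => (y, t.q i)
  have hTmem : ∀ i < m, ∀ y ∈ t.Y i, (y, t.q i) ∈ T := fun i hi y hy =>
    Finset.mem_biUnion.2 ⟨i, Finset.mem_range.2 hi, Finset.mem_image.2 ⟨y, hy, rfl⟩⟩
  have hT : ∀ s ∈ T, s.2.Prime ∧ s.1 ^ s.2 ∈ U ∧ s.1 ∉ U := by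
    intro s hs
    obtain ⟨i, hi, hs1⟩ := Finset.mem_biUnion.1 hs
    obtain ⟨y, hy, rfl⟩ := Finset.mem_image.1 hs1
    exact ⟨t.prime i, h (t.pow_mem_inf' hy),
      t.notMem hU h h1 (hmin i (Finset.mem_range.1 hi)) hy⟩
  obtain ⟨k, f, hf, hk, hker⟩ := low hU (t.q m) T hT
  refine ⟨m, k, f, hf, ?_, ?_⟩
  · have hsum : ∑ s ∈ T, U.index / s.2
        = ∑ i ∈ Finset.range m, (t.Y i).card * (U.index / t.q i) := by
      rw [Finset.sum_biUnion]
      · refine Finset.sum_congr rfl fun i _ => ?_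
        rw [Finset.sum_image]
        · change ∑ x ∈ t.Y i, U.index / t.q i = _
          rw [Finset.sum_const, smul_eq_mul]
        · intro x _ y _ hxy
          exact congrArg Prod.fst hxy
      · intro i _ i' _ hii
        rw [Function.onFun, Finset.disjoint_left]
        intro s hs hs'
        obtain ⟨y, _, rfl⟩ := Finset.mem_image.1 hs
        obtain ⟨y', _, hy'⟩ := Finset.mem_image.1 hs'
        exact hii (t.q_strictMono.injective (congrArg Prod.snd hy').symm)
    have hhalf := surj_half U.index m (fun i => K * ((t.Y i).card * (U.index / t.q i))) (by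
      intro i
      calc K * ((t.Y i).card * (U.index / t.q i)) * 2 ^ (i + 2)
          = ((t.Y i).card * 2 ^ (i + 2) * K) * (U.index / t.q i) := by ring
        _ ≤ t.q i * (U.index / t.q i) := Nat.mul_le_mul_right _ (t.few i)
        _ ≤ U.index := Nat.mul_div_le _ _)
    rw [hsum] at hk
    rw [← Finset.mul_sum] at hhalf
    have h5 := Nat.mul_le_mul_left (2 * K) hk
    have h6 : 2 * K * (k + ∑ i ∈ Finset.range m, (t.Y i).card * (U.index / t.q i))
        = 2 * K * k + 2 * (K * ∑ i ∈ Finset.range m, (t.Y i).card * (U.index / t.q i)) := by ring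
    omega
  · have hL : t.L (m + 1) ≤ f.ker.map U.subtype := by
      rw [t.Lsucc]
      refine sup_le (sup_le ?_ ?_) ?_
      · rw [LDM.pw_le_iff]
        intro y hy
        refine ⟨⟨y, hm hy⟩ ^ t.q m, ?_, rfl⟩
        change f _ = 1
        rw [map_pow]
        have h2 : (t.q m) • (Multiplicative.toAdd (f ⟨y, hm hy⟩)) = 0 := by
          ext i
          rw [Pi.smul_apply, nsmul_eq_mul, ZMod.natCast_self, zero_mul, Pi.zero_apply]
        exact h2
      · rw [commutator_le]
        intro x hx y hy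
        refine ⟨⁅(⟨x, hm hx⟩ : U), (⟨y, hm hy⟩ : U)⁆, ?_, rfl⟩
        change f _ = 1
        rw [map_commutatorElement]
        exact commutatorElement_eq_one_iff_mul_comm.2 (mul_comm _ _)
      · have hR : ∀ i ≤ m, t.R i ≤ f.ker.map U.subtype := by
          intro i
          induction i with
          | zero => intro _; rw [t.R0]; exact bot_le
          | succ i ih =>
            intro hi
            rw [t.Rsucc]
            refine sup_le (ih (by omega)) ?_
            unfold normalClosure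
            rw [closure_le]
            intro x hx
            obtain ⟨a, ha, hax⟩ := Group.mem_conjugatesOfSet_iff.1 hx
            obtain ⟨y, hy, rfl⟩ := ha
            obtain ⟨g, rfl⟩ := isConj_iff.1 hax
            have h3 : g * y ^ t.q i * g⁻¹ ∈ U := h (t.pow_mem_inf hy g)
            exact ⟨⟨_, h3⟩, hker _ (hTmem i (by omega) y hy) g h3, rfl⟩
        exact hR m le_rfl
    intro x hx
    obtain ⟨w, hw, hwx⟩ := hL (t.inf_le (m + 1) hx)
    have h3 : w = x := Subtype.ext hwx
    rw [← h3]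
    exact hw

end PPQ
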