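import Pool.Agent.PPQ.Defs

/-! Project PPQ: finite quotients of the group of a tower. -/

namespace PPQ

open Subgroup
open scoped commutatorElement

private theorem top_coprime {G : Type*} [Group G] {K : Subgroup G} {x : G} {a b : ℕ}
    (hab : a.Coprime b) (ha : x ^ a ∈ K) (hb : x ^ b ∈ K) : x ∈ K := by
  have h := Nat.gcd_eq_gcd_ab a b
  rw [hab.gcd_eq_one] at h
  have h1 : x = (x ^ a) ^ (Nat.gcdA a b) * (x ^ b) ^ (Nat.gcdB a b) := by
    rw [← zpow_natCast x a, ← zpow_natCast x b, ← zpow_mul, ← zpow_mul, ← zpow_add, ← h]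
    simp
  rw [h1]
  exact K.mul_mem (K.zpow_mem ha _) (K.zpow_mem hb _)

private theorem top_pow {G : Type*} [Group G] {S : Set G} {K : Subgroup G} [K.Normal] {a : ℕ}
    (hc : ⁅closure S, closure S⁆ ≤ K) (hS : ∀ s ∈ S, s ^ a ∈ K) {x : G}
    (hx : x ∈ closure S) : x ^ a ∈ K := by
  induction hx using closure_induction with
  | mem x hx => exact hS x hx
  | one => simp [K.one_mem]
  | mul x y hx hy h1 h2 =>
    have h3 : Commute (QuotientGroup.mk' K x) (QuotientGroup.mk' K y) := by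
      have h4 : ⁅x, y⁆ ∈ K := hc (commutator_mem_commutator hx hy)
      rw [commutatorElement_def] at h4
      have h5 : QuotientGroup.mk' K (x * y * x⁻¹ * y⁻¹) = 1 :=
        (QuotientGroup.eq_one_iff _).2 h4
      rw [map_mul, map_mul, map_mul, map_inv, map_inv] at h5
      have h6 := mul_inv_eq_one.1 h5
      exact mul_inv_eq_iff_eq_mul.1 h6
    rw [← QuotientGroup.eq_one_iff] at h1 h2 ⊢
    have h7 : QuotientGroup.mk' K ((x * y) ^ a) = 1 := by
      rw [map_pow, map_mul, h3.mul_pow, ← map_pow, ← map_pow]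
      have h8 : QuotientGroup.mk' K (x ^ a) = 1 := h1
      have h9 : QuotientGroup.mk' K (y ^ a) = 1 := h2
      rw [h8, h9, mul_one]
    exact h7
  | inv x hx h1 => rw [inv_pow]; exact K.inv_mem h1

namespace Tower

variable {K : ℕ} (t : Tower K)

theorem inf_le (n : ℕ) : t.inf ≤ t.L n := iInf_le _ _

theorem L_succ_le_L (n : ℕ) : t.L (n + 1) ≤ t.L n := by
  rw [t.Lsucc]
  exact sup_le (LDM.Fr_le _ _) (t.RL n)

theorem L_anti : Antitone t.L := antitone_nat_of_succ_le t.L_succ_le_L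

theorem R_mono : Monotone t.R := monotone_nat_of_le_succ fun n => by
  rw [t.Rsucc]
  exact le_sup_left

theorem R_le_L (n m : ℕ) : t.R n ≤ t.L m := by
  rcases le_total n m with h | h
  · exact (t.R_mono h).trans (t.RL m)
  · exact (t.RL n).trans (t.L_anti h)

theorem R_le_inf (n : ℕ) : t.R n ≤ t.inf := le_iInf fun m => t.R_le_L n m

theorem pow_mem_R {n : ℕ} {y : F2} (hy : y ∈ t.Y n) (g : F2) :
    g * y ^ t.q n * g⁻¹ ∈ t.R (n + 1) := by
  refine (t.Rnormal (n + 1)).conj_mem _ ?_ g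
  rw [t.Rsucc]
  exact mem_sup_right (subset_normalClosure ⟨y, hy, rfl⟩)

theorem pow_mem_inf {n : ℕ} {y : F2} (hy : y ∈ t.Y n) (g : F2) :
    g * y ^ t.q n * g⁻¹ ∈ t.inf := t.R_le_inf _ (t.pow_mem_R hy g)

theorem pow_mem_inf' {n : ℕ} {y : F2} (hy : y ∈ t.Y n) : y ^ t.q n ∈ t.inf := by
  have h := t.pow_mem_inf hy 1
  simpa using h

theorem inf_normal : t.inf.Normal := by
  have : ∀ n, (t.L n).Normal := fun n => (t.ns n).1
  exact normal_iInf_normal this

theorem L_le_of {n : ℕ} {U : Subgroup F2} (h : ∀ y ∈ t.Y n, y ∈ U) : t.L n ≤ U := by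
  rw [← t.gen n, closure_le]
  exact fun y hy => h y hy

theorem Y_mem {n : ℕ} {y : F2} (hy : y ∈ t.Y n) : y ∈ t.L n := by
  rw [← t.gen n]
  exact subset_closure hy

theorem q_strictMono : StrictMono t.q := strictMono_nat_of_lt_succ t.qlt

theorem q_coprime {n m : ℕ} (h : n ≠ m) : (t.q n).Coprime (t.q m) :=
  (Nat.coprime_primes (t.prime n) (t.prime m)).2 fun h1 => h (t.q_strictMono.injective h1)

theorem exists_L_le {U : Subgroup F2} (hU : U.FiniteIndex) (h : t.inf ≤ U) :
    ∃ n, t.L n ≤ U := by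
  have := t.inf_normal
  have h1 : t.inf ≤ U.normalCore := by
    rw [normal_le_normalCore]
    exact h
  have h2 : U.normalCore.index ≠ 0 := (inferInstance : U.normalCore.FiniteIndex).index_ne_zero
  refine ⟨U.normalCore.index, (t.L_le_of fun y hy => ?_).trans (normalCore_le U)⟩
  have h3 : U.normalCore.index < t.q U.normalCore.index := by
    have h4 : t.q 0 + U.normalCore.index ≤ t.q U.normalCore.index := by
      have h5 := t.q_strictMono.add_le_nat U.normalCore.index 0
      simpa [add_comm] using h5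
    have h6 := (t.prime 0).pos
    omega
  refine top_coprime (a := t.q U.normalCore.index) (b := U.normalCore.index) ?_
    (h1 (t.pow_mem_inf' hy)) (pow_index_mem _ y)
  rw [(t.prime _).coprime_iff_not_dvd]
  exact Nat.not_dvd_of_pos_of_lt (Nat.pos_of_ne_zero h2) h3

theorem of_notMem (i : Fin 2) : FreeGroup.of i ∉ t.L 1 := by
  intro h
  let f : F2 →* Multiplicative (ZMod (t.q 0)) := FreeGroup.lift fun _ => Multiplicative.ofAdd 1
  have h1 : t.L 1 ≤ f.ker := by
    rw [t.Lsucc 0, t.R0, sup_bot_eq]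
    unfold LDM.Fr
    refine sup_le ?_ ?_
    · rw [LDM.pw_le_iff]
      intro y _
      rw [MonoidHom.mem_ker, map_pow]
      have h2 : (t.q 0) • (Multiplicative.toAdd (f y)) = 0 := by
        rw [nsmul_eq_mul, ZMod.natCast_self, zero_mul]
      exact h2
    · rw [commutator_le]
      intro x _ y _
      rw [MonoidHom.mem_ker, map_commutatorElement]
      exact commutatorElement_eq_one_iff_mul_comm.2 (mul_comm _ _)
  have h3 : f (FreeGroup.of i) = 1 := h1 h
  have h4 : f (FreeGroup.of i) = Multiplicative.ofAdd 1 := FreeGroup.lift_apply_of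
  rw [h4] at h3
  have h5 : (1 : ZMod (t.q 0)) = 0 := h3
  have : Fact (1 < t.q 0) := ⟨(t.prime 0).one_lt⟩
  exact one_ne_zero h5

theorem notMem {U : Subgroup F2} (hU : LDM.NS U) (h : t.inf ≤ U) (h1 : U ≤ t.L 1) {n : ℕ}
    (hn : ¬ t.L n ≤ U) {y : F2} (hy : y ∈ t.Y n) : y ∉ U := by
  rcases Nat.eq_zero_or_pos n with rfl | hn0
  · rw [t.Y0] at hy
    simp only [Finset.mem_insert, Finset.mem_singleton] at hy
    rcases hy with rfl | rfl
    · exact fun h2 => t.of_notMem 0 (h1 h2)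
    · exact fun h2 => t.of_notMem 1 (h1 h2)
  intro hyU
  have := hU.1
  have hLn : ∀ n, (t.L n).Normal := fun n => (t.ns n).1
  let π := QuotientGroup.mk' U
  have hπ : Function.Surjective π := QuotientGroup.mk'_surjective U
  have hker : ∀ x, x ∈ U → π x = 1 := fun x hx => (QuotientGroup.eq_one_iff x).2 hx
  have hL : t.L n ≤ U ⊔ t.L (n + 1) := by
    refine t.norm n hn0 y hy _ ?_ le_sup_right (mem_sup_left hyU)
    have := hLn (n + 1)
    infer_instance
  set P := (t.L n).map π with hP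
  have hmapU : U.map π = ⊥ := by
    rw [Subgroup.map_eq_bot_iff, QuotientGroup.ker_mk']
  have hP1 : P ≤ (t.L (n + 1)).map π := by
    have h2 := map_mono (f := π) hL
    rwa [Subgroup.map_sup, hmapU, bot_sup_eq] at h2
  have hP2 : (t.L (n + 1)).map π ≤ P := map_mono (t.L_succ_le_L n)
  have hP3 : (t.L (n + 1)).map π = P := le_antisymm hP2 hP1
  have hPn : P.Normal := by
    have := hLn n
    exact Normal.map this π hπ
  have hcl : ∀ k, (t.L k).map π = closure (π '' (t.Y k : Set F2)) := by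
    intro k
    rw [← t.gen k, MonoidHom.map_closure]
  have hpow : ∀ k, (t.L k).map π = P → ∀ x ∈ P, x ^ t.q k ∈ ⁅P, P⁆ := by
    intro k hk x hx
    rw [← hk, hcl k] at hx
    refine top_pow ?_ ?_ hx
    · rw [← hcl k, hk]
    · rintro _ ⟨y, hy, rfl⟩
      rw [← map_pow, hker _ (h (t.pow_mem_inf' hy))]
      exact one_mem _
  have hPP : P ≤ ⁅P, P⁆ := fun x hx => top_coprime (t.q_coprime (Nat.succ_ne_self n).symm)
    (hpow n rfl x hx) (hpow (n + 1) hP3 x hx)
  have hall : ∀ k, P ≤ (t.L (n + k)).map π := by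
    intro k
    induction k with
    | zero => exact le_rfl
    | succ k ih =>
      refine hPP.trans ((commutator_mono ih ih).trans ?_)
      rw [← map_commutator]
      refine map_mono ?_
      rw [← add_assoc, t.Lsucc]
      exact le_sup_of_le_left le_sup_right
  obtain ⟨k, hk⟩ := t.exists_L_le hU.2 h
  refine hn ?_
  intro x hx
  have h2 : π x ∈ P := mem_map_of_mem π hx
  obtain ⟨w, hw, hwx⟩ := hall k h2
  have h3 : w ∈ U := hk (t.L_anti (Nat.le_add_left k n) hw)
  rw [hker w h3] at hwx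
  exact (QuotientGroup.eq_one_iff x).1 hwx.symm

/-- nilpotent quotients -/
theorem nilp {B : Subgroup F2} {n : ℕ} (hB : t.L n ≤ B) (A : Subgroup B) [A.Normal]
    (hA : A.FiniteIndex) (h : t.inf.subgroupOf B ≤ A) (hN : Group.IsNilpotent (B ⧸ A)) :
    (t.L (n + 1)).subgroupOf B ≤ A := by
  have hfin : Finite (B ⧸ A) := inferInstance
  have : Fact (t.q n).Prime := ⟨t.prime n⟩
  obtain ⟨Q⟩ : Nonempty (Sylow (t.q n) (B ⧸ A)) := inferInstance
  have hQn : (Q : Subgroup (B ⧸ A)).Normal :=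
    ((Group.isNilpotent_of_finite_tfae (G := B ⧸ A)).out 0 3 rfl rfl).1 hN (t.q n) inferInstance Q
  let π := QuotientGroup.mk' A
  have hpow : ∀ (k : ℕ) (y : B), (y : F2) ∈ t.Y k → π y ^ t.q k = 1 := by
    intro k y hy
    rw [← map_pow]
    refine (QuotientGroup.eq_one_iff _).2 (h ?_)
    rw [mem_subgroupOf]
    exact t.pow_mem_inf' hy
  have h1 : t.L n ≤ ((Q : Subgroup (B ⧸ A)).comap π).map B.subtype := by
    refine t.L_le_of fun y hy => ?_
    refine ⟨⟨y, hB (t.Y_mem hy)⟩, ?_, rfl⟩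
    change π _ ∈ (Q : Subgroup (B ⧸ A))
    refine top_coprime (a := t.q n) (b := (Q : Subgroup (B ⧸ A)).index) ?_ ?_
      (pow_index_mem _ _)
    · rw [(t.prime n).coprime_iff_not_dvd]
      exact Q.not_dvd_index
    · rw [hpow n _ hy]
      exact one_mem _
  have h2 : t.L (n + 1) ≤ A.map B.subtype := by
    refine t.L_le_of fun y hy => ?_
    obtain ⟨x, hx, hxy⟩ := h1 (t.L_succ_le_L n (t.Y_mem hy))
    refine ⟨x, ?_, hxy⟩
    have h3 : π x ^ t.q (n + 1) = 1 := hpow (n + 1) x (by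
      have h4 : (x : F2) = y := hxy
      rw [h4]
      exact hy)
    obtain ⟨k, hk⟩ := (Q.isPGroup' ⟨π x, hx⟩)
    have h5 : π x ^ (t.q n) ^ k = 1 := by
      have h6 := congrArg Subtype.val hk
      simpa using h6
    have h6 : π x ∈ (⊥ : Subgroup (B ⧸ A)) := by
      refine top_coprime (a := (t.q n) ^ k) (b := t.q (n + 1)) ?_ ?_ ?_
      · exact Nat.Coprime.pow_left _ (t.q_coprime (Nat.succ_ne_self n).symm)
      · rw [h5]; exact one_mem _
      · rw [h3]; exact one_mem _
    exact (QuotientGroup.eq_one_iff x).1 (mem_bot.1 h6)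
  intro x hx
  rw [mem_subgroupOf] at hx
  obtain ⟨w, hw, hwx⟩ := h2 hx
  have h3 : w = x := Subtype.ext hwx
  rwa [← h3]

/-- derived subgroups -/
theorem L_succ_le (n : ℕ) : t.L (n + 1) ≤ ⁅t.L n, t.L n⁆ ⊔ t.inf := by
  have := t.inf_normal
  have := (t.ns n).1
  rw [t.Lsucc]
  refine sup_le (sup_le ?_ le_sup_left) ((t.R_le_inf n).trans le_sup_right)
  rw [LDM.pw_le_iff]
  intro y hy
  rw [← t.gen n] at hy
  refine top_pow ?_ ?_ hy
  · rw [t.gen n]
    exact le_sup_left
  · intro s hs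
    exact mem_sup_right (t.pow_mem_inf' hs)

end Tower

end PPQ
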